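import Pool.Agent.TH451.BK.Configs

set_option autoImplicit false

namespace Pool.Agent.TH451.BK

open Finset
open scoped Classical

variable {V : Type} [Fintype V]

namespace MinCex

variable {k : ℕ} {G : SimpleGraph V}

theorem good_pair (hG : MinCex k G) (C : Finset V) (hk : 20 ≤ k) (Z : Finset V) (hZ : 5 ≤ Z.card)
    (hZC : ∀ z ∈ Z, z ∉ C) (hZn : ∀ z ∈ Z, ∃ u ∈ C, G.Adj u z) :
    ∃ z ∈ Z, ∃ z' ∈ Z, z ≠ z' ∧ GoodPair k G C z z' := by
  by_contra hcon
  push Not at hcon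
  have hbad : ∀ z ∈ Z, ∀ z' ∈ Z, z ≠ z' → ∃ s : Finset V, Disjoint s C ∧ z ∈ s ∧ z' ∈ s ∧
      ¬ G.Adj z z' ∧ k ≤ s.card ∧ (∀ a ∈ s, ∀ b ∈ s, a ≠ b → G.Adj a b ∨ (a = z ∧ b = z') ∨ (a = z' ∧ b = z)) := by
    intro z hz z' hz' hne
    have h := hcon z hz z' hz' hne
    unfold GoodPair at h
    push Not at h
    obtain ⟨s, hs1, hs2, hs3⟩ := h
    have hncl : ¬ G.IsClique (s : Set V) := fun h => absurd (hG.clq s h) (by omega)
    have hall : z ∈ s ∧ z' ∈ s ∧ ¬ G.Adj z z' := by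
      by_contra hno
      apply hncl
      intro a ha b hb hab
      rcases hs2 a ha b hb hab with h | ⟨h1, h2⟩ | ⟨h1, h2⟩
      · exact h
      · rw [h1, h2]
        by_contra hadj
        exact hno ⟨h1 ▸ ha, h2 ▸ hb, hadj⟩
      · rw [h1, h2]
        by_contra hadj
        exact hno ⟨h2 ▸ hb, h1 ▸ ha, fun h => hadj h.symm⟩
    exact ⟨s, hs1, hall.1, hall.2.1, hall.2.2, hs3, hs2⟩
  obtain ⟨z1, hz1⟩ : Z.Nonempty := Finset.card_pos.1 (by omega)
  obtain ⟨T, hTsub, hTcard⟩ := Finset.exists_subset_card_eq (s := Z.erase z1) (n := 4) (by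
    rw [Finset.card_erase_of_mem hz1]; omega)
  have hT : ∀ z ∈ T, z ∈ Z ∧ z ≠ z1 := fun z hz =>
    ⟨(Finset.mem_erase.1 (hTsub hz)).2, (Finset.mem_erase.1 (hTsub hz)).1⟩
  have hex : ∀ z : V, ∃ s : Finset V, z ∈ T → (Disjoint s C ∧ z1 ∈ s ∧ z ∈ s ∧
      ¬ G.Adj z1 z ∧ k ≤ s.card ∧ (∀ a ∈ s, ∀ b ∈ s, a ≠ b → G.Adj a b ∨ (a = z1 ∧ b = z) ∨ (a = z ∧ b = z1))) := by
    intro z
    by_cases hz : z ∈ T
    · obtain ⟨s, hs⟩ := hbad z1 hz1 z (hT z hz).1 (hT z hz).2.symm
      exact ⟨s, fun _ => hs⟩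
    · exact ⟨∅, fun h => absurd h hz⟩
  choose s hs using hex
  set N1 := nb G z1 \ C with hN1
  have hN1card : N1.card ≤ k := by
    obtain ⟨u, hu, hadj⟩ := hZn z1 hz1
    have h1 := adj_in_card hu hadj
    have h2 := Finset.card_sdiff_add_card_inter (nb G z1) C
    have h3 := hG.deg z1
    rw [← hN1] at h2
    omega
  have hQ : ∀ z ∈ T, ((s z) \ {z1, z}) ⊆ N1 := by
    intro z hz a ha
    obtain ⟨h1, h2, h3, h4, h5, h6⟩ := hs z hz
    obtain ⟨ha1, ha2⟩ := Finset.mem_sdiff.1 ha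
    simp only [Finset.mem_insert, Finset.mem_singleton, not_or] at ha2
    refine Finset.mem_sdiff.2 ⟨mem_nb.2 ?_, fun h => (Finset.disjoint_left.1 h1 ha1) h⟩
    rcases h6 z1 h2 a ha1 (Ne.symm ha2.1) with h | ⟨-, h⟩ | ⟨-, h⟩
    · exact h
    · exact absurd h ha2.2
    · exact absurd h ha2.1
  have hQc : ∀ z ∈ T, (N1 \ ((s z) \ {z1, z})).card ≤ 2 := by
    intro z hz
    have h1 := Finset.card_sdiff_add_card_eq_card (hQ z hz)
    have h2 : (s z).card ≤ ((s z) \ {z1, z}).card + 2 := by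
      have h3 := Finset.card_sdiff_add_card_inter (s z) {z1, z}
      have h4 : ((s z) ∩ {z1, z}).card ≤ 2 :=
        (Finset.card_le_card Finset.inter_subset_right).trans Finset.card_le_two
      omega
    have h3 := (hs z hz).2.2.2.2.1
    omega
  have hIc : (T.biUnion (fun z => N1 \ ((s z) \ {z1, z}))).card ≤ 8 := by
    refine Finset.card_biUnion_le.trans ?_
    refine (Finset.sum_le_card_nsmul T _ 2 hQc).trans ?_
    rw [hTcard]; norm_num
  obtain ⟨z2, hz2⟩ : T.Nonempty := Finset.card_pos.1 (by omega)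
  have hN1big : 8 < N1.card := by
    have h1 := Finset.card_le_card (hQ z2 hz2)
    have h2 : (s z2).card ≤ ((s z2) \ {z1, z2}).card + 2 := by
      have h3 := Finset.card_sdiff_add_card_inter (s z2) {z1, z2}
      have h4 : ((s z2) ∩ {z1, z2}).card ≤ 2 :=
        (Finset.card_le_card Finset.inter_subset_right).trans Finset.card_le_two
      omega
    have h3 := (hs z2 hz2).2.2.2.2.1
    omega
  obtain ⟨w, hw1, hw2⟩ := Finset.exists_mem_notMem_of_card_lt_card (lt_of_le_of_lt hIc hN1big)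
  have hwall : ∀ z ∈ T, w ∈ (s z) \ {z1, z} := by
    intro z hz
    by_contra h
    exact hw2 (Finset.mem_biUnion.2 ⟨z, hz, Finset.mem_sdiff.2 ⟨hw1, h⟩⟩)
  have hwadj : ∀ z ∈ T, G.Adj w z := by
    intro z hz
    obtain ⟨h1, h2, h3, h4, h5, h6⟩ := hs z hz
    obtain ⟨ha1, ha2⟩ := Finset.mem_sdiff.1 (hwall z hz)
    simp only [Finset.mem_insert, Finset.mem_singleton, not_or] at ha2
    rcases h6 w ha1 z h3 ha2.2 with h | ⟨h, -⟩ | ⟨h, -⟩
    · exact h
    · exact absurd h ha2.1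
    · exact absurd h ha2.2
  obtain ⟨h1, h2, h3, h4, h5, h6⟩ := hs z2 hz2
  obtain ⟨ha1, ha2⟩ := Finset.mem_sdiff.1 (hwall z2 hz2)
  simp only [Finset.mem_insert, Finset.mem_singleton, not_or] at ha2
  have hsub1 : (s z2).erase w ⊆ nb G w := by
    intro a ha
    obtain ⟨hb1, hb2⟩ := Finset.mem_erase.1 ha
    rw [mem_nb]
    rcases h6 w ha1 a hb2 (Ne.symm hb1) with h | ⟨h, -⟩ | ⟨h, -⟩
    · exact h
    · exact absurd h ha2.1
    · exact absurd h ha2.2
  have hsub2 : T.erase z2 ⊆ nb G w := by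
    intro a ha
    exact mem_nb.2 (hwadj a (Finset.mem_erase.1 ha).2)
  have hdis : Disjoint ((s z2).erase w) (T.erase z2) := by
    rw [Finset.disjoint_left]
    intro a ha ha'
    obtain ⟨hb1, hb2⟩ := Finset.mem_erase.1 ha
    obtain ⟨hc1, hc2⟩ := Finset.mem_erase.1 ha'
    have hna := (hs a hc2).2.2.2.1
    rcases h6 z1 h2 a hb2 (hT a hc2).2.symm with h | ⟨-, h⟩ | ⟨-, h⟩
    · exact hna h
    · exact hc1 h
    · exact (hT a hc2).2 h
  have hfin : ((s z2).erase w).card + (T.erase z2).card ≤ (nb G w).card := by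
    rw [← Finset.card_union_of_disjoint hdis]
    exact Finset.card_le_card (Finset.union_subset hsub1 hsub2)
  rw [Finset.card_erase_of_mem ha1, Finset.card_erase_of_mem hz2, hTcard] at hfin
  have := hG.deg w
  omega

end MinCex

/-- JOB SPREAD -/
theorem exists_spread (G : SimpleGraph V) (k t m : ℕ) (hG : MinCex k G) (ht : 2 ≤ t) (hm : 1 ≤ m)
    (hk : 100 * m * (t + 7) ≤ k) (C : Finset V) (hC : G.IsClique (C : Set V))
    (hCt : k + 1 ≤ C.card + t)
    (hnear : ∀ y y' : V, y ∉ C → y' ∉ C → (C \ nb G y).card ≤ 3 → (C \ nb G y').card ≤ 3 →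
      y = y') :
    ∃ u y y' : Fin m → V, Spread G C u y y' := by
  by_contra hno
  -- a maximal number of triples
  have hP0 : ∃ u y y' : Fin 0 → V, Spread G C u y y' :=
    ⟨Fin.elim0, Fin.elim0, Fin.elim0, by constructor <;> intro j <;> exact j.elim0⟩
  obtain ⟨n, hnm, ⟨u, y, y', hS⟩, hn1⟩ : ∃ n, n < m ∧ (∃ u y y' : Fin n → V, Spread G C u y y') ∧
      ¬ (∃ u y y' : Fin (n + 1) → V, Spread G C u y y') := by
    by_contra hcon
    push Not at hcon
    have : ∀ n, n ≤ m → ∃ u y y' : Fin n → V, Spread G C u y y' := by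
      intro n
      induction n with
      | zero => intro _; exact hP0
      | succ n ih =>
        intro hn
        obtain ⟨u, y, y', h⟩ := ih (by omega)
        exact hcon n (by omega) ⟨u, y, y', h⟩
    exact hno (this m le_rfl)
  set U0 := univ.image u with hU0
  set X := univ.image y ∪ univ.image y' with hX
  have hU0c : U0.card ≤ n := by
    have := Finset.card_image_le (s := (univ : Finset (Fin n))) (f := u)
    simpa using this
  have hXc : X.card ≤ 2 * n := by
    have h1 := Finset.card_image_le (s := (univ : Finset (Fin n))) (f := y)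
    have h2 := Finset.card_image_le (s := (univ : Finset (Fin n))) (f := y')
    have h3 := Finset.card_union_le (univ.image y) (univ.image y')
    rw [Finset.card_univ, Fintype.card_fin] at h1 h2
    rw [← hX] at h3
    omega
  have hXC : ∀ x ∈ X, x ∉ C := by
    intro x hx
    rcases Finset.mem_union.1 hx with h | h
    · obtain ⟨j, -, rfl⟩ := Finset.mem_image.1 h
      exact hS.yC j
    · obtain ⟨j, -, rfl⟩ := Finset.mem_image.1 h
      exact hS.yC' j
  -- maximality
  have hmax : ∀ v ∈ C, v ∉ U0 → ((nb G v \ C) \ X).card ≤ 1 := by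
    intro v hv hvU
    by_contra hlt
    push Not at hlt
    obtain ⟨a, ha, b, hb, hab⟩ := Finset.one_lt_card.1 hlt
    obtain ⟨ha1, ha2⟩ := Finset.mem_sdiff.1 ha
    obtain ⟨hb1, hb2⟩ := Finset.mem_sdiff.1 hb
    have hau : ∀ j, y j ≠ a := fun j h => ha2 (Finset.mem_union_left _ (Finset.mem_image.2 ⟨j, Finset.mem_univ _, h⟩))
    have hau' : ∀ j, y' j ≠ a := fun j h => ha2 (Finset.mem_union_right _ (Finset.mem_image.2 ⟨j, Finset.mem_univ _, h⟩))
    have hbu : ∀ j, y j ≠ b := fun j h => hb2 (Finset.mem_union_left _ (Finset.mem_image.2 ⟨j, Finset.mem_univ _, h⟩))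
    have hbu' : ∀ j, y' j ≠ b := fun j h => hb2 (Finset.mem_union_right _ (Finset.mem_image.2 ⟨j, Finset.mem_univ _, h⟩))
    have hvu : ∀ j, u j ≠ v := fun j h => hvU (Finset.mem_image.2 ⟨j, Finset.mem_univ _, h⟩)
    apply hn1
    refine ⟨Fin.cons v u, Fin.cons a y, Fin.cons b y', ?_⟩
    constructor
    · intro j; refine Fin.cases ?_ (fun i => ?_) j
      · simpa using hv
      · simpa using hS.uC i
    · intro j; refine Fin.cases ?_ (fun i => ?_) j
      · simpa using (Finset.mem_sdiff.1 ha1).2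
      · simpa using hS.yC i
    · intro j; refine Fin.cases ?_ (fun i => ?_) j
      · simpa using (Finset.mem_sdiff.1 hb1).2
      · simpa using hS.yC' i
    · intro j; refine Fin.cases ?_ (fun i => ?_) j
      · simpa using mem_nb.1 (Finset.mem_sdiff.1 ha1).1
      · simpa using hS.adj i
    · intro j; refine Fin.cases ?_ (fun i => ?_) j
      · simpa using mem_nb.1 (Finset.mem_sdiff.1 hb1).1
      · simpa using hS.adj' i
    · rw [Fin.cons_injective_iff]
      exact ⟨fun ⟨j, hj⟩ => hvu j hj, hS.injU⟩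
    · rw [Fin.cons_injective_iff]
      exact ⟨fun ⟨j, hj⟩ => hau j hj, hS.injY⟩
    · rw [Fin.cons_injective_iff]
      exact ⟨fun ⟨j, hj⟩ => hbu' j hj, hS.injY'⟩
    · intro i j
      refine Fin.cases ?_ (fun i => ?_) i
      · refine Fin.cases ?_ (fun j => ?_) j
        · simpa using hab
        · simpa using (hau' j).symm
      · refine Fin.cases ?_ (fun j => ?_) j
        · simpa using hbu i
        · simpa using hS.yy i j
  -- the good part of C
  set Xs := X.filter (fun x => (nb G x ∩ C).card < t + 6) with hXs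
  set C' := (C \ U0) \ Xs.biUnion (fun x => nb G x ∩ C) with hC'
  have hC'c : C.card ≤ C'.card + n + 2 * n * (t + 5) := by
    have h1 : (Xs.biUnion (fun x => nb G x ∩ C)).card ≤ 2 * n * (t + 5) := by
      refine Finset.card_biUnion_le.trans ?_
      refine (Finset.sum_le_card_nsmul Xs _ (t + 5) (fun x hx => ?_)).trans ?_
      · have := (Finset.mem_filter.1 hx).2
        omega
      · rw [smul_eq_mul]
        apply Nat.mul_le_mul_right
        exact (Finset.card_filter_le _ _).trans hXc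
    have h2 : C.card ≤ (C \ U0).card + U0.card := by
      have := Finset.card_le_card_sdiff_add_card (s := C) (t := U0)
      exact this
    have h3 : (C \ U0).card ≤ C'.card + (Xs.biUnion (fun x => nb G x ∩ C)).card :=
      Finset.card_le_card_sdiff_add_card
    omega
  have hkk : 1800 * m ≤ 2 * k := by
    have : 100 * m * 9 ≤ 100 * m * (t + 7) := Nat.mul_le_mul_left _ (by omega)
    omega
  have hkt : 100 * t ≤ k := by
    have : 100 * 1 * (t + 7) ≤ 100 * m * (t + 7) :=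
      Nat.mul_le_mul_right _ (Nat.mul_le_mul_left _ hm)
    omega
  have hCk : C.card < k := hG.clq C hC
  -- types
  have htype : ∀ v : V, ∃ (o : Option V) (z : V), v ∈ C' →
      (o = none ∨ ∃ y1 ∈ X, o = some y1) ∧ C.card + 1 = k ∧ z ∉ C ∧ (nb G z ∩ C).card < t + 6 ∧
      G.Adj v z ∧ ∃ y0, y0 ∉ C ∧ (C \ nb G y0).card ≤ 3 ∧ y0 ≠ z ∧
      ((o = none ∧ nb G v \ C = {y0, z}) ∨
       (∃ y1, o = some y1 ∧ nb G v \ C = {y0, y1, z} ∧ y1 ≠ z ∧ 3 < (C \ nb G y1).card ∧
          t + 6 ≤ (nb G y1 ∩ C).card)) := by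
    intro v
    by_cases hv : v ∈ C'
    swap
    · exact ⟨none, v, fun h => absurd h hv⟩
    obtain ⟨hv1, hv2⟩ := Finset.mem_sdiff.1 hv
    obtain ⟨hvC, hvU⟩ := Finset.mem_sdiff.1 hv1
    have hm1 := hmax v hvC hvU
    -- all X-neighbours of v are big
    have hbigX : ∀ x ∈ X, G.Adj v x → t + 6 ≤ (nb G x ∩ C).card := by
      intro x hx hadj
      by_contra hlt
      push Not at hlt
      apply hv2
      rw [Finset.mem_biUnion]
      exact ⟨x, Finset.mem_filter.2 ⟨hx, hlt⟩, Finset.mem_inter.2 ⟨mem_nb.2 hadj.symm, hvC⟩⟩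
    have hout1 := hG.out_le hC hvC
    have hout2 := hG.out_ge hvC
    set Y := (nb G v \ C) ∩ X with hY
    have hYc : (nb G v \ C).card ≤ Y.card + 1 := by
      have := Finset.card_sdiff_add_card_inter (nb G v \ C) X
      rw [← hY] at this
      omega
    have hYmem : ∀ x ∈ Y, x ∉ C ∧ G.Adj v x ∧ x ∈ X ∧ t + 6 ≤ (nb G x ∩ C).card := by
      intro x hx
      obtain ⟨h1, h2⟩ := Finset.mem_inter.1 hx
      obtain ⟨h3, h4⟩ := Finset.mem_sdiff.1 h1
      exact ⟨h4, mem_nb.1 h3, h2, hbigX x h2 (mem_nb.1 h3)⟩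
    by_cases hr : (nb G v \ C).card + C.card ≤ k + 1
    · -- type alpha
      have hnearbig : ∀ x, x ∉ C → G.Adj v x → t + 6 ≤ (nb G x ∩ C).card → (C \ nb G x).card ≤ 3 := by
        intro x hxC hadj hb
        by_contra hfar
        push Not at hfar
        obtain ⟨w, hw⟩ : (C \ nb G x).Nonempty := Finset.card_pos.1 (by omega)
        obtain ⟨hw1, hw2⟩ := Finset.mem_sdiff.1 hw
        exact hG.configA t C hC hCt v w x hvC hw1 hxC hr hadj
          (fun h => hw2 (mem_nb.2 h.symm)) hb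
      have hY1 : Y.card ≤ 1 := by
        rw [Finset.card_le_one]
        intro a ha b hb
        obtain ⟨a1, a2, a3, a4⟩ := hYmem a ha
        obtain ⟨b1, b2, b3, b4⟩ := hYmem b hb
        exact hnear a b a1 b1 (hnearbig a a1 a2 a4) (hnearbig b b1 b2 b4)
      have hc2 : (nb G v \ C).card = 2 := by omega
      obtain ⟨y0, hy0⟩ : Y.Nonempty := Finset.card_pos.1 (by omega)
      obtain ⟨a1, a2, a3, a4⟩ := hYmem y0 hy0
      have hmem0 : y0 ∈ nb G v \ C := Finset.mem_sdiff.2 ⟨mem_nb.2 a2, a1⟩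
      have herase : ((nb G v \ C).erase y0).card = 1 := by
        rw [Finset.card_erase_of_mem hmem0, hc2]
      obtain ⟨z, hz⟩ := Finset.card_eq_one.1 herase
      have hzmem : z ∈ (nb G v \ C).erase y0 := by rw [hz]; simp
      obtain ⟨hz1, hz2⟩ := Finset.mem_erase.1 hzmem
      obtain ⟨hz3, hz4⟩ := Finset.mem_sdiff.1 hz2
      have hNeq : nb G v \ C = {y0, z} := by
        rw [← Finset.insert_erase hmem0, hz]
      refine ⟨none, z, fun _ => ⟨Or.inl rfl, by omega, hz4, ?_, mem_nb.1 hz3, y0, a1,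
        hnearbig y0 a1 a2 a4, Ne.symm hz1, Or.inl ⟨rfl, hNeq⟩⟩⟩
      by_contra hlt
      push Not at hlt
      exact hz1 (hnear z y0 hz4 a1 (hnearbig z hz4 (mem_nb.1 hz3) hlt) (hnearbig y0 a1 a2 a4))
    · -- type beta
      have hr2 : (nb G v \ C).card + C.card = k + 2 := by omega
      have hfar1 : ∀ a b, a ∉ C → b ∉ C → G.Adj v a → G.Adj v b → t + 6 ≤ (nb G a ∩ C).card →
          t + 6 ≤ (nb G b ∩ C).card → 3 < (C \ nb G a).card → 3 < (C \ nb G b).card → a = b := by
        intro a b haC hbC hva hvb hab hbb hfa hfb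
        by_contra hne
        obtain ⟨w, hw⟩ : (C \ nb G a).Nonempty := Finset.card_pos.1 (by omega)
        obtain ⟨w', hw', hww⟩ := Finset.exists_mem_ne (show 1 < (C \ nb G b).card by omega) w
        obtain ⟨hw1, hw2⟩ := Finset.mem_sdiff.1 hw
        obtain ⟨hw1', hw2'⟩ := Finset.mem_sdiff.1 hw'
        exact hG.configB t C hC hCt v w w' a b hvC hw1 hw1' (Ne.symm hww) haC hbC hne hva hvb
          (fun h => hw2 (mem_nb.2 h.symm)) (fun h => hw2' (mem_nb.2 h.symm)) hab hbb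
      have hYge : 2 ≤ Y.card := by omega
      -- near part and far part of Y
      have hn1 : (Y.filter (fun x => (C \ nb G x).card ≤ 3)).card ≤ 1 := by
        rw [Finset.card_le_one]
        intro a ha b hb
        obtain ⟨ha1, ha2⟩ := Finset.mem_filter.1 ha
        obtain ⟨hb1, hb2⟩ := Finset.mem_filter.1 hb
        exact hnear a b (hYmem a ha1).1 (hYmem b hb1).1 ha2 hb2
      have hf1 : (Y.filter (fun x => ¬ (C \ nb G x).card ≤ 3)).card ≤ 1 := by
        rw [Finset.card_le_one]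
        intro a ha b hb
        obtain ⟨ha1, ha2⟩ := Finset.mem_filter.1 ha
        obtain ⟨hb1, hb2⟩ := Finset.mem_filter.1 hb
        obtain ⟨a1, a2, a3, a4⟩ := hYmem a ha1
        obtain ⟨b1, b2, b3, b4⟩ := hYmem b hb1
        exact hfar1 a b a1 b1 a2 b2 a4 b4 (by omega) (by omega)
      have hsplit := Finset.card_filter_add_card_filter_not (s := Y)
        (fun x => (C \ nb G x).card ≤ 3)
      have hY2 : Y.card = 2 := by omega
      have hc3 : (nb G v \ C).card = 3 := by omega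
      obtain ⟨y0, hy0⟩ : (Y.filter (fun x => (C \ nb G x).card ≤ 3)).Nonempty :=
        Finset.card_pos.1 (by omega)
      obtain ⟨y1, hy1⟩ : (Y.filter (fun x => ¬ (C \ nb G x).card ≤ 3)).Nonempty :=
        Finset.card_pos.1 (by omega)
      obtain ⟨hy0Y, hy0n⟩ := Finset.mem_filter.1 hy0
      obtain ⟨hy1Y, hy1f⟩ := Finset.mem_filter.1 hy1
      obtain ⟨a1, a2, a3, a4⟩ := hYmem y0 hy0Y
      obtain ⟨b1, b2, b3, b4⟩ := hYmem y1 hy1Y
      have hne01 : y0 ≠ y1 := fun h => hy1f (h ▸ hy0n)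
      have hmem0 : y0 ∈ nb G v \ C := Finset.mem_sdiff.2 ⟨mem_nb.2 a2, a1⟩
      have hmem1 : y1 ∈ (nb G v \ C).erase y0 :=
        Finset.mem_erase.2 ⟨hne01.symm, Finset.mem_sdiff.2 ⟨mem_nb.2 b2, b1⟩⟩
      have herase : (((nb G v \ C).erase y0).erase y1).card = 1 := by
        rw [Finset.card_erase_of_mem hmem1, Finset.card_erase_of_mem hmem0, hc3]
      obtain ⟨z, hz⟩ := Finset.card_eq_one.1 herase
      have hzmem : z ∈ ((nb G v \ C).erase y0).erase y1 := by rw [hz]; simp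
      obtain ⟨hz1, hzm⟩ := Finset.mem_erase.1 hzmem
      obtain ⟨hz0, hz2⟩ := Finset.mem_erase.1 hzm
      obtain ⟨hz3, hz4⟩ := Finset.mem_sdiff.1 hz2
      have hNeq : nb G v \ C = {y0, y1, z} := by
        rw [← Finset.insert_erase hmem0, ← Finset.insert_erase hmem1, hz]
      refine ⟨some y1, z, fun _ => ⟨Or.inr ⟨y1, b3, rfl⟩, by omega, hz4, ?_, mem_nb.1 hz3, y0, a1,
        hy0n, Ne.symm hz0, Or.inr ⟨y1, rfl, hNeq, Ne.symm hz1, by omega, b4⟩⟩⟩
      by_contra hlt
      push Not at hlt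
      by_cases hzn : (C \ nb G z).card ≤ 3
      · exact hz0 (hnear z y0 hz4 a1 hzn hy0n)
      · exact hz1 (hfar1 z y1 hz4 b1 (mem_nb.1 hz3) b2 hlt b4 (by omega) (by omega))
  choose o z hoz using htype
  -- pigeonhole on `o`
  have hbound : (insert none (X.image some) : Finset (Option V)).card ≤ 2 * n + 1 := by
    have h1 := Finset.card_insert_le (none : Option V) (X.image some)
    have h2 := Finset.card_image_le (s := X) (f := (some : V → Option V))
    omega
  have hmaps : ∀ v ∈ C', o v ∈ (insert none (X.image some) : Finset (Option V)) := by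
    intro v hv
    rcases (hoz v hv).1 with h | ⟨y1, hy1, h⟩
    · rw [h]; exact Finset.mem_insert_self _ _
    · rw [h]; exact Finset.mem_insert_of_mem (Finset.mem_image.2 ⟨y1, hy1, rfl⟩)
  have hlt : (insert none (X.image some) : Finset (Option V)).card * (4 * (t + 5)) < C'.card := by
    have h1 : (insert none (X.image some) : Finset (Option V)).card * (4 * (t + 5)) ≤
        (2 * n + 1) * (4 * (t + 5)) := Nat.mul_le_mul_right _ hbound
    have h2 : n + 1 ≤ m := hnm
    have h3 : 100 * (n + 1) * (t + 7) ≤ k :=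
      (Nat.mul_le_mul_right _ (Nat.mul_le_mul_left _ h2)).trans hk
    nlinarith
  obtain ⟨o0, -, ho0⟩ := Finset.exists_lt_card_fiber_of_mul_lt_card_of_maps_to hmaps hlt
  set S1 := C'.filter (fun v => o v = o0) with hS1
  have hZ : 5 ≤ (S1.image z).card := by
    by_contra hlt4
    push Not at hlt4
    have h1 : S1.card ≤ (t + 5) * (S1.image z).card := by
      apply Finset.card_le_mul_card_image
      intro b hb
      obtain ⟨v, hv, rfl⟩ := Finset.mem_image.1 hb
      have hvC' := (Finset.mem_filter.1 hv).1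
      have h2 := (hoz v hvC').2.2.2.1
      have h3 : S1.filter (fun x => z x = z v) ⊆ nb G (z v) ∩ C := by
        intro x hx
        obtain ⟨hx1, hx2⟩ := Finset.mem_filter.1 hx
        have hxC' := (Finset.mem_filter.1 hx1).1
        have hadj := (hoz x hxC').2.2.2.2.1
        rw [hx2] at hadj
        exact Finset.mem_inter.2 ⟨mem_nb.2 hadj.symm, (Finset.mem_sdiff.1 (Finset.mem_sdiff.1 hxC').1).1⟩
      have h4 := Finset.card_le_card h3
      omega
    have h2 : (t + 5) * (S1.image z).card ≤ (t + 5) * 4 := Nat.mul_le_mul_left _ (by omega)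
    omega
  have hS1C : ∀ v ∈ S1, v ∈ C := fun v hv =>
    (Finset.mem_sdiff.1 (Finset.mem_sdiff.1 (Finset.mem_filter.1 hv).1).1).1
  obtain ⟨z1, hz1, z2, hz2, hz12, hgood⟩ := hG.good_pair C (by omega) (S1.image z) hZ (by
    intro a ha
    obtain ⟨v, hv, rfl⟩ := Finset.mem_image.1 ha
    exact (hoz v (Finset.mem_filter.1 hv).1).2.2.1) (by
    intro a ha
    obtain ⟨v, hv, rfl⟩ := Finset.mem_image.1 ha
    exact ⟨v, hS1C v hv, (hoz v (Finset.mem_filter.1 hv).1).2.2.2.2.1⟩)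
  obtain ⟨v1, hv1, rfl⟩ := Finset.mem_image.1 hz1
  obtain ⟨v2, hv2, rfl⟩ := Finset.mem_image.1 hz2
  obtain ⟨hv1C', hov1⟩ := Finset.mem_filter.1 hv1
  obtain ⟨hv2C', hov2⟩ := Finset.mem_filter.1 hv2
  obtain ⟨-, hCk1, hz1C, -, -, y0, hy0C, hy0n, hy0z, hcase⟩ := hoz v1 hv1C'
  obtain ⟨-, -, hz2C, -, -, y0', hy0C', hy0n', hy0z', hcase'⟩ := hoz v2 hv2C'
  have hyy : y0' = y0 := hnear y0' y0 hy0C' hy0C hy0n' hy0n
  subst hyy
  rcases hcase with ⟨ho1, hN1⟩ | ⟨y1, ho1, hN1, hy1z, hy1f, hy1b⟩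
  · rcases hcase' with ⟨ho2, hN2⟩ | ⟨y1', ho2, hN2, hy1z', hy1f', hy1b'⟩
    · exact hG.configAlpha C hC hCk1 v1 v2 y0' (z v1) (z v2) (hS1C v1 hv1) (hS1C v2 hv2) hz1C hz2C
        hz12 hy0z hN1 hN2 hgood
    · rw [hov2, ← hov1, ho1] at ho2
      exact absurd ho2 (by simp)
  · rcases hcase' with ⟨ho2, hN2⟩ | ⟨y1', ho2, hN2, hy1z', hy1f', hy1b'⟩
    · rw [hov2, ← hov1, ho1] at ho2
      exact absurd ho2 (by simp)
    · rw [hov2, ← hov1, ho1] at ho2
      have hyeq : y1 = y1' := Option.some_injective _ ho2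
      subst hyeq
      obtain ⟨w, hw⟩ : (C \ nb G y1).Nonempty := Finset.card_pos.1 (by omega)
      obtain ⟨hw1, hw2⟩ := Finset.mem_sdiff.1 hw
      have hy1C : y1 ∉ C := by
        have : y1 ∈ nb G v1 \ C := by rw [hN1]; simp
        exact (Finset.mem_sdiff.1 this).2
      exact hG.configBeta C hC hCk1 v1 v2 w y0' y1 (z v1) (z v2) (hS1C v1 hv1) (hS1C v2 hv2) hw1
        hy1C hz1C hz2C hz12 hy1z hy1z' hN1 hN2 (fun h => hw2 (mem_nb.2 h.symm)) (by omega) hgood

end Pool.Agent.TH451.BK
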