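import Pool.Agent.TH451.BK.Local
import Pool.Agent.TH451.BK.SpreadPf
import Pool.Agent.TH73.BK_completion
import Pool.Agent.TH553.BK_DENSE
import Pool.Agent.TH9.BK_181

set_option autoImplicit false
set_option linter.unusedSectionVars false

namespace Pool.Agent.TH451.BK

open Finset
open scoped Classical

section

variable {V : Type} [Fintype V]

theorem exists_maxFam (k t : ℕ) (G : SimpleGraph V) : ∃ F, MaxFam k t G F := by
  have h0 : Fam k t G ∅ := ⟨by simp, by simp, by simp⟩
  obtain ⟨F, hF, hmax⟩ := Finset.exists_max_image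
    (univ.filter (fun F : Finset (Finset V) => Fam k t G F)) (fun F => (F.biUnion id).card)
    ⟨∅, Finset.mem_filter.2 ⟨Finset.mem_univ _, h0⟩⟩
  exact ⟨F, (Finset.mem_filter.1 hF).2, fun F' hF' =>
    hmax F' (Finset.mem_filter.2 ⟨Finset.mem_univ _, hF'⟩)⟩

theorem sparse_or {k t : ℕ} {G : SimpleGraph V} (hG : MinCex k G) (ht : 1 ≤ t)
    (hk : 100 * (t + 1) ≤ k) {F : Finset (Finset V)} (hF : MaxFam k t G F) (v : V)
    (hv : v ∉ F.biUnion id) :
    t * (k + 1) ≤ 8 * prs G v ∨ ∃ C ∈ F, k ≤ (nb G v ∩ C).card + 2 * t := by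
  by_cases hs : t * (k + 1) ≤ 8 * prs G v
  · exact Or.inl hs
  right
  push Not at hs
  obtain ⟨C0, hC0, hvC0, hC0t⟩ := TH553.BK.dense_clique G k t hG ht hk v hs
  -- some member of F meets C0
  have hmeet : ∃ C ∈ F, ¬ Disjoint C0 C := by
    by_contra hcon
    push Not at hcon
    have hnot : C0 ∉ F := fun h => hv (Finset.mem_biUnion.2 ⟨C0, h, hvC0⟩)
    have hfam : Fam k t G (insert C0 F) := by
      constructor
      · intro C hC
        rcases Finset.mem_insert.1 hC with rfl | h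
        · exact hC0
        · exact hF.clq C h
      · intro C hC
        rcases Finset.mem_insert.1 hC with rfl | h
        · exact hC0t
        · exact hF.big C h
      · intro C hC C' hC' hne
        rcases Finset.mem_insert.1 hC with rfl | h
        · rcases Finset.mem_insert.1 hC' with rfl | h'
          · exact absurd rfl hne
          · exact hcon C' h'
        · rcases Finset.mem_insert.1 hC' with rfl | h'
          · exact (hcon C h).symm
          · exact hF.disj C h C' h' hne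
    have h1 := hF.max _ hfam
    rw [Finset.biUnion_insert] at h1
    have h2 : insert v (F.biUnion id) ⊆ id C0 ∪ F.biUnion id := by
      intro x hx
      rcases Finset.mem_insert.1 hx with rfl | hx
      · exact Finset.mem_union_left _ hvC0
      · exact Finset.mem_union_right _ hx
    have h3 := Finset.card_le_card h2
    rw [Finset.card_insert_of_notMem hv] at h3
    omega
  obtain ⟨C, hC, hnd⟩ := hmeet
  rw [Finset.not_disjoint_iff] at hnd
  obtain ⟨x, hx0, hxC⟩ := hnd
  refine ⟨C, hC, ?_⟩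
  have hvC : v ∉ C := fun h => hv (Finset.mem_biUnion.2 ⟨C, hC, h⟩)
  have hCt := hF.big C hC
  have h1 : (C.erase x) ∪ (C0 \ C) ⊆ nb G x := by
    intro w hw
    rcases Finset.mem_union.1 hw with h | h
    · obtain ⟨h1, h2⟩ := Finset.mem_erase.1 h
      exact mem_nb.2 (hF.clq C hC hxC h2 (Ne.symm h1))
    · obtain ⟨h1, h2⟩ := Finset.mem_sdiff.1 h
      refine mem_nb.2 (hC0 hx0 h1 ?_)
      rintro rfl
      exact h2 hxC
  have h2 : Disjoint (C.erase x) (C0 \ C) := by
    rw [Finset.disjoint_left]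
    intro w hw hw'
    exact (Finset.mem_sdiff.1 hw').2 (Finset.mem_erase.1 hw).2
  have h3 := Finset.card_le_card h1
  rw [Finset.card_union_of_disjoint h2, Finset.card_erase_of_mem hxC] at h3
  have h4 := hG.deg x
  have h5 := Finset.card_sdiff_add_card_inter C0 C
  have h6 : C0 ∩ C ⊆ nb G v ∩ C := by
    intro w hw
    obtain ⟨h1, h2⟩ := Finset.mem_inter.1 hw
    refine Finset.mem_inter.2 ⟨mem_nb.2 (hC0 hvC0 h1 ?_), h2⟩
    rintro rfl
    exact hvC h2
  have h7 := Finset.card_le_card h6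
  have h8 : 0 < C.card := Finset.card_pos.2 ⟨x, hxC⟩
  omega

/-- there is no minimal counterexample for good parameters -/
theorem no_minCex {k t m B L : ℕ} (hP : Par k t m B L) (G : SimpleGraph V) (hG : MinCex k G) :
    False := by
  have hm := hP.hm
  have ht := hP.ht
  have hkt : 100 * (t + 1) ≤ k := by
    have h1 : 100 * 1 * (t + 7) ≤ 100 * m * (t + 7) :=
      Nat.mul_le_mul_right _ (Nat.mul_le_mul_left _ hm)
    have := hP.hbig
    omega
  obtain ⟨F, hF⟩ := exists_maxFam k t G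
  have hspread : ∀ C ∈ F, ∃ u y y' : Fin m → V, Spread G C u y y' := by
    intro C hC
    exact exists_spread G k t m hG ht hm hP.hbig C (hF.clq C hC) (hF.big C hC)
      (fun y y' hy hy' h h' => TH9.BK.near_unique G k t hG hkt F hF C hC y y' hy hy' h h')
  obtain ⟨ω, hω⟩ := exists_good hP G hG.deg F hF.toFam
    (fun v hv => sparse_or hG (by omega) hkt hF v hv) hspread
  refine TH73.BK.completion G k t B hG hkt F hF.toFam (colF G ω) ?_ ?_ ?_
  · intro x y hxy c h
    exact colF_proper x y hxy c h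
  · intro v hv _
    rcases (hω v).1 hv with h | h
    · left
      refine lt_of_lt_of_le h (Finset.card_le_card ?_)
      intro c hc
      obtain ⟨-, x, hx, y, hy, hne, h1, h2⟩ := Finset.mem_filter.1 hc
      exact Finset.mem_filter.2 ⟨Finset.mem_univ _, x, hx, y, hy, hne, colF_some.2 h1, colF_some.2 h2⟩
    · right
      refine lt_of_lt_of_le h (Finset.card_le_card ?_)
      intro x hx
      obtain ⟨h1, h2⟩ := Finset.mem_filter.1 hx
      exact Finset.mem_filter.2 ⟨h1, colF_none h2⟩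
  · intro C hC
    obtain ⟨v, hv⟩ : C.Nonempty := by
      rw [← Finset.card_pos]
      have := hF.big C hC
      omega
    obtain ⟨u, y, y', hS, hB, hJ⟩ := (hω v).2 C hC hv
    refine ⟨m, u, y, y', hS, ?_, ?_⟩
    · intro c
      refine le_trans ?_ (hB c)
      apply Finset.card_le_card_of_injOn (fun j => if colF G ω (y j) = some c then y j else y' j)
      · intro j hj
        have hj' := (Finset.mem_filter.1 (Finset.mem_coe.1 hj)).2
        rw [Finset.mem_coe, Finset.mem_filter]
        by_cases h : colF G ω (y j) = some c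
        · simp only [h, if_true]
          refine ⟨?_, (colF_some.1 h).1.1⟩
          simp
        · simp only [h, if_false]
          have h' := hj'.resolve_left h
          refine ⟨?_, (colF_some.1 h').1.1⟩
          simp
      · intro i _ j _ hij
        simp only at hij
        split_ifs at hij
        · exact hS.injY hij
        · exact absurd hij (hS.yy i j)
        · exact absurd hij.symm (hS.yy j i)
        · exact hS.injY' hij
    · have h1 := hP.hJ
      have h2 : (univ.filter (fun j : Fin m => (∀ c, ¬ act ω (u j) c) ∧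
        (∃ c, ret G ω (y j) c) ∧ (∃ c, ret G ω (y' j) c))).card ≤
        (univ.filter (fun j : Fin m => colF G ω (u j) = none ∧ colF G ω (y j) ≠ none ∧
          colF G ω (y' j) ≠ none)).card := by
        apply Finset.card_le_card
        intro j hj
        obtain ⟨-, h1, h2, h3⟩ := Finset.mem_filter.1 hj
        exact Finset.mem_filter.2 ⟨Finset.mem_univ _, colF_none h1, colF_ne_none h2, colF_ne_none h3⟩
      omega

end

/-- the colouring theorem -/
theorem bk_aux {k t m B L : ℕ} (hP : Par k t m B L) : ∀ (n : ℕ) (V : Type) [Fintype V]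
    (G : SimpleGraph V), Fintype.card V = n → (∀ v, (nb G v).card ≤ k + 1) →
    (∀ s : Finset V, G.IsClique (s : Set V) → s.card < k) →
    ∃ f : V → Fin k, PropOn G univ f := by
  intro n
  induction n using Nat.strong_induction_on with
  | _ n ih =>
    intro V _ G hn hdeg hclq
    by_contra hno
    have hk0 : 0 < k := by have := hP.hk; omega
    refine no_minCex hP G ⟨hdeg, hclq, hno, ?_⟩
    intro W G' hW hdeg' hclq'
    have hcard : Fintype.card W < n := by
      rw [Fintype.card_coe, ← hn, ← Finset.card_univ]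
      exact Finset.card_lt_card (Finset.ssubset_univ_iff.2 hW)
    obtain ⟨f, hf⟩ := ih (Fintype.card W) hcard W (G'.comap (fun x : W => x.1)) rfl (by
      intro w
      refine le_trans ?_ (hdeg' w.1 w.2)
      apply Finset.card_le_card_of_injOn (fun x : W => x.1)
      · intro x hx
        have h1 := mem_nb.1 (Finset.mem_coe.1 hx)
        exact Finset.mem_coe.2 (Finset.mem_inter.2 ⟨mem_nb.2 h1, x.2⟩)
      · intro a _ b _ hab
        exact Subtype.ext hab) (by
      intro s hs
      have h1 := hclq' (s.map (Function.Embedding.subtype _)) (by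
        intro x hx
        obtain ⟨y, -, rfl⟩ := Finset.mem_map.1 hx
        exact y.2) (by
        intro a ha b hb hab
        obtain ⟨a', ha', rfl⟩ := Finset.mem_map.1 (Finset.mem_coe.1 ha)
        obtain ⟨b', hb', rfl⟩ := Finset.mem_map.1 (Finset.mem_coe.1 hb)
        exact hs (Finset.mem_coe.2 ha') (Finset.mem_coe.2 hb') (fun h => hab (by rw [h])))
      rwa [Finset.card_map] at h1)
    refine ⟨fun x => if h : x ∈ W then f ⟨x, h⟩ else ⟨0, hk0⟩, ?_⟩
    intro x hx y hy hxy
    simp only [hx, hy, dif_pos]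
    exact hf ⟨x, hx⟩ (Finset.mem_univ _) ⟨y, hy⟩ (Finset.mem_univ _) hxy

open Filter in
/-- good parameters exist -/
theorem exists_par : ∃ k t m B L : ℕ, Par k t m B L := by
  -- three exponential conditions
  have hr : ∀ r : ℝ, 0 ≤ r → r < 1 → ∀ᶠ M : ℕ in atTop, (M : ℝ) ^ 36 * r ^ M < 1 / 1000000 := by
    intro r h0 h1
    have := tendsto_pow_const_mul_const_pow_of_abs_lt_one 36 (r := r) (by rw [abs_of_nonneg h0]; exact h1)
    exact this.eventually (gt_mem_nhds (by norm_num))
  have e1 := hr (Real.exp (-1 / 50000)) (Real.exp_pos _).le (by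
    rw [Real.exp_lt_one_iff]; norm_num)
  have e2 := hr (1 / 16) (by norm_num) (by norm_num)
  have e3 := hr (Real.exp (-1 / (2 ^ 27 * 24 ^ 2))) (Real.exp_pos _).le (by
    rw [Real.exp_lt_one_iff]; norm_num)
  obtain ⟨M, hM1, hM2, hM3, hM4⟩ := (e1.and (e2.and (e3.and (eventually_ge_atTop 100000)))).exists
  have hMr : (100000 : ℝ) ≤ M := by exact_mod_cast hM4
  have hM0 : (0 : ℝ) < M := by linarith
  have hp6 : ((M : ℝ) ^ 6 + 2) ^ 6 ≤ 2 * (M : ℝ) ^ 36 := by
    have h1 : (M : ℝ) ^ 6 + 2 ≤ (1 + 1 / 100) * (M : ℝ) ^ 6 := by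
      have : (200 : ℝ) ≤ (M : ℝ) ^ 6 := by
        calc (200 : ℝ) ≤ 100000 ^ 6 := by norm_num
          _ ≤ (M : ℝ) ^ 6 := pow_le_pow_left₀ (by norm_num) hMr 6
      linarith
    calc ((M : ℝ) ^ 6 + 2) ^ 6 ≤ ((1 + 1 / 100) * (M : ℝ) ^ 6) ^ 6 :=
          pow_le_pow_left₀ (by positivity) h1 6
      _ = (1 + 1 / 100) ^ 6 * (M : ℝ) ^ 36 := by ring
      _ ≤ 2 * (M : ℝ) ^ 36 := by
          apply mul_le_mul_of_nonneg_right _ (by positivity)
          norm_num
  refine ⟨M ^ 6, M, M ^ 4, 24, M, ?_⟩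
  constructor
  · calc 100 ≤ M ^ 1 := by rw [pow_one]; omega
      _ ≤ M ^ 6 := Nat.pow_le_pow_right (by omega) (by norm_num)
  · omega
  · exact Nat.one_le_pow _ _ (by omega)
  · norm_num
  · have h1 : 100 * (M + 7) ≤ M * M := by nlinarith
    calc 100 * M ^ 4 * (M + 7) = M ^ 4 * (100 * (M + 7)) := by ring
      _ ≤ M ^ 4 * (M * M) := Nat.mul_le_mul_left _ h1
      _ = M ^ 6 := by ring
  · calc 2 * M + 2 * M = 4 * M := by ring
      _ ≤ M * M := Nat.mul_le_mul_right _ (by omega)
      _ = M ^ 2 := by ring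
      _ ≤ M ^ 6 := Nat.pow_le_pow_right (by omega) (by norm_num)
  · calc 2048 * (24 * (M + 1) + 1) < M * M := by nlinarith
      _ = M ^ 2 := by ring
      _ ≤ M ^ 4 := Nat.pow_le_pow_right (by omega) (by norm_num)
  · push_cast
    have h1 : Real.exp (-(M : ℝ) / 50000) = Real.exp (-1 / 50000) ^ M := by
      rw [← Real.exp_nat_mul]
      congr 1
      ring
    rw [h1]
    have h2 : 0 ≤ Real.exp (-1 / 50000) ^ M := by positivity
    calc 3 * Real.exp (-1 / 50000) ^ M * (4 * ((M : ℝ) ^ 6 + 2) ^ 6)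
        ≤ 3 * Real.exp (-1 / 50000) ^ M * (4 * (2 * (M : ℝ) ^ 36)) := by
          apply mul_le_mul_of_nonneg_left _ (by positivity)
          linarith
      _ = 24 * ((M : ℝ) ^ 36 * Real.exp (-1 / 50000) ^ M) := by ring
      _ ≤ 1 := by linarith
  · push_cast
    have h2 : (0 : ℝ) ≤ (1 / 16) ^ M := by positivity
    calc 2 * (1 / 16 : ℝ) ^ M * (4 * ((M : ℝ) ^ 6 + 2) ^ 6)
        ≤ 2 * (1 / 16 : ℝ) ^ M * (4 * (2 * (M : ℝ) ^ 36)) := by
          apply mul_le_mul_of_nonneg_left _ (by positivity)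
          linarith
      _ = 16 * ((M : ℝ) ^ 36 * (1 / 16) ^ M) := by ring
      _ ≤ 1 := by linarith
  · push_cast
    have h3 : (16 * (M : ℝ) ^ 6) ^ 25 ≤ (16 * ((M : ℝ) ^ 6 + 1)) ^ 25 :=
      pow_le_pow_left₀ (by positivity) (by linarith) 25
    have h4 : (1 : ℝ) ≤ (M : ℝ) ^ 8 := one_le_pow₀ (by linarith)
    calc (M : ℝ) ^ 6 * (3 * (M : ℝ) ^ 4) ^ (24 + 1) * (8 * ((M : ℝ) ^ 6 + 2) ^ 6)
        ≤ (M : ℝ) ^ 6 * (3 * (M : ℝ) ^ 4) ^ (24 + 1) * (8 * (2 * (M : ℝ) ^ 36)) := by
          apply mul_le_mul_of_nonneg_left _ (by positivity)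
          linarith
      _ = (16 * 3 ^ 25) * (M : ℝ) ^ 142 * 1 := by ring
      _ ≤ (16 * 3 ^ 25) * (M : ℝ) ^ 142 * (M : ℝ) ^ 8 := by
          apply mul_le_mul_of_nonneg_left h4 (by positivity)
      _ = (16 * 3 ^ 25) * (M : ℝ) ^ 150 := by ring
      _ ≤ 16 ^ 25 * (M : ℝ) ^ 150 := by
          apply mul_le_mul_of_nonneg_right _ (by positivity)
          norm_num
      _ = (16 * (M : ℝ) ^ 6) ^ 25 := by ring
      _ ≤ (16 * ((M : ℝ) ^ 6 + 1)) ^ (24 + 1) := h3
  · push_cast
    have h1 : -(((M : ℝ) ^ 4) ^ 2) / (2 ^ 27 * 24 ^ 2 * (M : ℝ) ^ 6) ≤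
        (M : ℝ) * (-1 / (2 ^ 27 * 24 ^ 2)) := by
      rw [div_le_iff₀ (by positivity)]
      have : (M : ℝ) * (-1 / (2 ^ 27 * 24 ^ 2)) * (2 ^ 27 * 24 ^ 2 * (M : ℝ) ^ 6) = - (M : ℝ) ^ 7 := by
        field_simp
      rw [this]
      have h2 : (M : ℝ) ^ 7 * 1 ≤ (M : ℝ) ^ 7 * M :=
        mul_le_mul_of_nonneg_left (by linarith) (by positivity)
      nlinarith
    have h2 : Real.exp (-(((M : ℝ) ^ 4) ^ 2) / (2 ^ 27 * 24 ^ 2 * (M : ℝ) ^ 6)) ≤
        Real.exp (-1 / (2 ^ 27 * 24 ^ 2)) ^ M := by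
      rw [← Real.exp_nat_mul]
      exact Real.exp_le_exp.2 h1
    calc Real.exp (-(((M : ℝ) ^ 4) ^ 2) / (2 ^ 27 * 24 ^ 2 * (M : ℝ) ^ 6)) *
          (8 * ((M : ℝ) ^ 6 + 2) ^ 6)
        ≤ Real.exp (-1 / (2 ^ 27 * 24 ^ 2)) ^ M * (8 * (2 * (M : ℝ) ^ 36)) := by
          apply mul_le_mul h2 (by linarith) (by positivity) (by positivity)
      _ = 16 * ((M : ℝ) ^ 36 * Real.exp (-1 / (2 ^ 27 * 24 ^ 2)) ^ M) := by ring
      _ ≤ 1 := by linarith

/-- Weak Borodin-Kostochka: for some `k ≥ 100`, every finite graph of maximum degree at most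
`k+1` without a clique on `k` vertices is `k`-colourable. -/
theorem weak_bk : ∃ k : ℕ, 100 ≤ k ∧ ∀ (V : Type) [Finite V] (G : SimpleGraph V),
    (∀ v : V, (G.neighborSet v).ncard ≤ k + 1) → G.CliqueFree k → G.Colorable k := by
  obtain ⟨k, t, m, B, L, hP⟩ := exists_par
  refine ⟨k, hP.hk, ?_⟩
  intro V _ G hdeg hclq
  have := Fintype.ofFinite V
  obtain ⟨f, hf⟩ := bk_aux hP (Fintype.card V) V G rfl (by
    intro v
    have h1 := hdeg v
    have h2 : G.neighborSet v = ((nb G v : Finset V) : Set V) := by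
      ext w; simp [nb]
    rw [h2, Set.ncard_coe_finset] at h1
    exact h1) (by
    intro s hs
    by_contra hlt
    push Not at hlt
    obtain ⟨s', hs', hc⟩ := Finset.exists_subset_card_eq hlt
    exact hclq s' ⟨hs.subset (Finset.coe_subset.2 hs'), hc⟩)
  exact ⟨⟨f, fun {a b} hab => hf a (Finset.mem_univ _) b (Finset.mem_univ _) hab⟩⟩

end Pool.Agent.TH451.BK
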