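import Pool.Agent.TH451.BK.Greedy

set_option autoImplicit false

namespace Pool.Agent.TH451.BK

open Finset
open scoped Classical

variable {V : Type} [Fintype V]

/-- colours seen by `u` from outside `C` -/
noncomputable def seen {k : ℕ} (G : SimpleGraph V) (C : Finset V) (ψ : V → Fin k) (u : V) :
    Finset (Fin k) := (nb G u \ C).image ψ

/-- the possible obstruction to extending `ψ` to the clique `C` -/
def Obs {k : ℕ} (G : SimpleGraph V) (C : Finset V) (ψ : V → Fin k) (Γ : Finset (Fin k)) : Prop :=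
  (k + 1 ≤ C.card + Γ.card ∧ ∀ u ∈ C, Γ ⊆ seen G C ψ u) ∨
  (k + 2 ≤ C.card + Γ.card ∧ ∃ u0 ∈ C, ∀ u ∈ C, u ≠ u0 → seen G C ψ u = Γ)

namespace MinCex

variable {k : ℕ} {G : SimpleGraph V}

theorem out_le (hG : MinCex k G) {C : Finset V} (hC : G.IsClique (C : Set V)) {u : V}
    (hu : u ∈ C) : (nb G u \ C).card + C.card ≤ k + 2 := by
  have h1 : C.erase u ⊆ nb G u := by
    intro x hx
    have h := Finset.mem_erase.1 hx
    exact mem_nb.2 (hC hu h.2 (Ne.symm h.1))
  have h2 : Disjoint (nb G u \ C) (C.erase u) := by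
    rw [Finset.disjoint_left]
    intro x hx hx'
    exact (Finset.mem_sdiff.1 hx).2 (Finset.mem_erase.1 hx').2
  have h3 : (nb G u \ C).card + (C.erase u).card ≤ (nb G u).card := by
    rw [← Finset.card_union_of_disjoint h2]
    exact Finset.card_le_card (Finset.union_subset Finset.sdiff_subset h1)
  have h4 := Finset.card_erase_of_mem hu
  have h5 : 0 < C.card := Finset.card_pos.2 ⟨u, hu⟩
  have h6 := hG.deg u
  omega

theorem out_ge (hG : MinCex k G) {C : Finset V} {u : V}
    (hu : u ∈ C) : k + 1 ≤ (nb G u \ C).card + C.card := by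
  have h1 : nb G u ⊆ (nb G u \ C) ∪ (C.erase u) := by
    intro x hx
    by_cases hxC : x ∈ C
    · refine Finset.mem_union_right _ (Finset.mem_erase.2 ⟨?_, hxC⟩)
      rintro rfl
      exact G.loopless.irrefl _ (mem_nb.1 hx)
    · exact Finset.mem_union_left _ (Finset.mem_sdiff.2 ⟨hx, hxC⟩)
  have h2 := (Finset.card_le_card h1).trans (Finset.card_union_le _ _)
  have h4 := Finset.card_erase_of_mem hu
  have h5 : 0 < C.card := Finset.card_pos.2 ⟨u, hu⟩
  have h6 := hG.mindeg u
  omega

theorem conf (hG : MinCex k G) (C : Finset V) (hC : G.IsClique (C : Set V)) (hne : C.Nonempty)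
    (G' : SimpleGraph V) (hsub : ∀ x y, x ∉ C → y ∉ C → G.Adj x y → G'.Adj x y)
    (hdeg : ∀ v, v ∉ C → (nb G' v \ C).card ≤ k + 1)
    (hclq : ∀ s : Finset V, Disjoint s C → G'.IsClique (s : Set V) → s.card < k) :
    ∃ ψ : V → Fin k, (∀ x y, x ∉ C → y ∉ C → G'.Adj x y → ψ x ≠ ψ y) ∧
      ∃ Γ : Finset (Fin k), Obs G C ψ Γ := by
  obtain ⟨ψ, hψ⟩ := hG.min (univ \ C) G' (by
    intro h
    obtain ⟨x, hx⟩ := hne
    have : x ∈ univ \ C := by rw [h]; exact Finset.mem_univ x
    exact (Finset.mem_sdiff.1 this).2 hx) (by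
    intro v hv
    have e : nb G' v ∩ (univ \ C) = nb G' v \ C := by ext w; simp
    rw [e]
    exact hdeg v (Finset.mem_sdiff.1 hv).2) (by
    intro s hs hs'
    exact hclq s (by
      rw [Finset.disjoint_left]
      intro x hx hxC
      exact (Finset.mem_sdiff.1 (hs hx)).2 hxC) hs')
  have hψ' : ∀ x y, x ∉ C → y ∉ C → G'.Adj x y → ψ x ≠ ψ y := by
    intro x y hx hy hxy
    exact hψ x (by simp [hx]) y (by simp [hy]) hxy
  refine ⟨ψ, hψ', ?_⟩
  let t : C → Finset (Fin k) := fun u => univ \ seen G C ψ u.1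
  by_cases hH : ∀ s : Finset C, s.card ≤ (s.biUnion t).card
  · exfalso
    obtain ⟨f, hf, hft⟩ := (Finset.all_card_le_biUnion_card_iff_exists_injective t).1 hH
    apply hG.nocol
    refine ⟨fun x => if h : x ∈ C then f ⟨x, h⟩ else ψ x, ?_⟩
    intro x _ y _ hxy
    have key : ∀ (x : V) (hx : x ∈ C) (y : V), y ∉ C → G.Adj x y → f ⟨x, hx⟩ ≠ ψ y := by
      intro x hx y hy hxy h
      have h1 := (Finset.mem_sdiff.1 (hft ⟨x, hx⟩)).2
      apply h1
      rw [h]
      exact Finset.mem_image.2 ⟨y, Finset.mem_sdiff.2 ⟨mem_nb.2 hxy, hy⟩, rfl⟩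
    by_cases hx : x ∈ C
    · by_cases hy : y ∈ C
      · simp only [hx, hy, dif_pos]
        intro h
        have := hf h
        have h2 : x = y := congrArg Subtype.val this
        subst h2
        exact G.loopless.irrefl _ hxy
      · simp only [hx, hy, dif_pos, dif_neg, not_false_iff]
        exact key x hx y hy hxy
    · by_cases hy : y ∈ C
      · simp only [hx, hy, dif_pos, dif_neg, not_false_iff]
        exact fun h => key y hy x hx hxy.symm h.symm
      · simp only [hx, hy, dif_neg, not_false_iff]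
        exact hψ' x y hx hy (hsub x y hx hy hxy)
  · push Not at hH
    obtain ⟨s, hs⟩ := hH
    refine ⟨univ \ s.biUnion t, ?_⟩
    set Γ : Finset (Fin k) := univ \ s.biUnion t with hΓ
    have hΓcard : Γ.card + (s.biUnion t).card = k := by
      rw [hΓ, Finset.card_sdiff_add_card_eq_card (Finset.subset_univ _), Finset.card_univ,
        Fintype.card_fin]
    have hΓsub : ∀ u ∈ s, Γ ⊆ seen G C ψ u.1 := by
      intro u hu c hc
      have h1 := (Finset.mem_sdiff.1 hc).2
      by_contra h2
      apply h1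
      exact Finset.mem_biUnion.2 ⟨u, hu, Finset.mem_sdiff.2 ⟨Finset.mem_univ _, h2⟩⟩
    have hseen : ∀ u ∈ C, (seen G C ψ u).card + C.card ≤ k + 2 := by
      intro u hu
      have h1 : (seen G C ψ u).card ≤ (nb G u \ C).card := Finset.card_image_le
      have h2 := hG.out_le hC hu
      omega
    have hsne : s.Nonempty := by
      rw [← Finset.card_pos]; omega
    obtain ⟨u1, hu1⟩ := hsne
    have h3 := hseen u1.1 u1.2
    have h4 := Finset.card_le_card (hΓsub u1 hu1)
    have hscard : s.card ≤ C.card := by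
      have := Finset.card_le_univ s
      rwa [Fintype.card_coe] at this
    by_cases hsC : s.card = C.card
    · left
      refine ⟨by omega, ?_⟩
      have hsu : s = univ := by
        apply Finset.eq_univ_of_card
        rw [Fintype.card_coe, hsC]
      intro u hu
      apply hΓsub ⟨u, hu⟩
      rw [hsu]; exact Finset.mem_univ _
    · right
      refine ⟨by omega, ?_⟩
      have hcompl : (univ \ s).card = 1 := by
        have := Finset.card_sdiff_add_card_eq_card (Finset.subset_univ s)
        rw [Finset.card_univ, Fintype.card_coe] at this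
        omega
      obtain ⟨u0, hu0⟩ := Finset.card_eq_one.1 hcompl
      refine ⟨u0.1, u0.2, ?_⟩
      intro u hu hne
      have hus : (⟨u, hu⟩ : C) ∈ s := by
        by_contra hns
        have : (⟨u, hu⟩ : C) ∈ univ \ s := by simp [hns]
        rw [hu0, Finset.mem_singleton] at this
        apply hne
        rw [← this]
      symm
      apply Finset.eq_of_subset_of_card_le (hΓsub _ hus)
      have := hseen u hu
      have e : (((⟨u, hu⟩ : C) : V)) = u := rfl
      rw [e]
      omega

/-- the graph `G` with the edges of the relation `E` added -/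
def addE (G : SimpleGraph V) (E : V → V → Prop) : SimpleGraph V := G ⊔ SimpleGraph.fromRel E

omit [Fintype V] in
theorem addE_adj {E : V → V → Prop} {a b : V} :
    (addE G E).Adj a b ↔ G.Adj a b ∨ (a ≠ b ∧ (E a b ∨ E b a)) := by
  simp [addE, SimpleGraph.sup_adj, SimpleGraph.fromRel_adj]

theorem conf2 (hG : MinCex k G) (C : Finset V) (hC : G.IsClique (C : Set V)) (hne : C.Nonempty)
    (E : V → V → Prop) (Bg : Finset V)
    (h1 : ∀ v, v ∉ C → (univ.filter (fun w => w ∉ C ∧ w ≠ v ∧ (E v w ∨ E w v))).card ≤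
      (nb G v ∩ C).card)
    (h2 : ∀ v ∈ Bg, v ∉ C → (univ.filter (fun w => w ∉ C ∧ w ≠ v ∧ (E v w ∨ E w v))).card + 3 ≤
      (nb G v ∩ C).card)
    (h3 : ∀ s : Finset V, Disjoint s C → Disjoint s Bg → (addE G E).IsClique (s : Set V) →
      s.card < k) :
    ∃ ψ : V → Fin k, (∀ x y, x ∉ C → y ∉ C → x ≠ y → E x y → ψ x ≠ ψ y) ∧
      ∃ Γ : Finset (Fin k), Obs G C ψ Γ := by
  have hcard : ∀ v, v ∉ C → (nb (addE G E) v \ C).card + (nb G v ∩ C).card ≤ k + 1 +
      (univ.filter (fun w => w ∉ C ∧ w ≠ v ∧ (E v w ∨ E w v))).card := by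
    intro v hv
    have e1 : nb (addE G E) v \ C ⊆ (nb G v \ C) ∪
        (univ.filter (fun w => w ∉ C ∧ w ≠ v ∧ (E v w ∨ E w v))) := by
      intro w hw
      obtain ⟨hw1, hw2⟩ := Finset.mem_sdiff.1 hw
      rcases addE_adj.1 (mem_nb.1 hw1) with h | ⟨h, h'⟩
      · exact Finset.mem_union_left _ (Finset.mem_sdiff.2 ⟨mem_nb.2 h, hw2⟩)
      · exact Finset.mem_union_right _ (Finset.mem_filter.2 ⟨Finset.mem_univ _, hw2, Ne.symm h, h'⟩)
    have e2 := (Finset.card_le_card e1).trans (Finset.card_union_le _ _)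
    have e3 := Finset.card_sdiff_add_card_inter (nb G v) C
    have e4 := hG.deg v
    omega
  obtain ⟨ψ, hψ, hΓ⟩ := hG.conf C hC hne (addE G E)
    (fun x y _ _ hxy => addE_adj.2 (Or.inl hxy))
    (fun v hv => by
      have e1 := hcard v hv
      have e2 := h1 v hv
      omega)
    (fun s hs hs' => by
      by_contra hlt
      push Not at hlt
      have hdis : Disjoint s Bg := by
        rw [Finset.disjoint_left]
        intro x hx hxB
        have hxC : x ∉ C := fun h => (Finset.disjoint_left.1 hs hx) h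
        have e1 := hcard x hxC
        have e2 := h2 x hxB hxC
        have e3 : s.erase x ⊆ nb (addE G E) x \ C := by
          intro y hy
          obtain ⟨hy1, hy2⟩ := Finset.mem_erase.1 hy
          refine Finset.mem_sdiff.2 ⟨mem_nb.2 (hs' hx hy2 (Ne.symm hy1)), ?_⟩
          exact fun h => (Finset.disjoint_left.1 hs hy2) h
        have e4 := Finset.card_le_card e3
        have e5 := Finset.card_erase_of_mem hx
        have e6 : 0 < s.card := Finset.card_pos.2 ⟨x, hx⟩
        omega
      exact absurd (h3 s hs hdis hs') (by omega))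
  exact ⟨ψ, fun x y hx hy hxy hE => hψ x y hx hy (addE_adj.2 (Or.inr ⟨hxy, Or.inl hE⟩)), hΓ⟩

end MinCex

end Pool.Agent.TH451.BK
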