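import Pool.Agent.TH451.BK.Conf

set_option autoImplicit false

namespace Pool.Agent.TH451.BK

open Finset
open scoped Classical

variable {V : Type} [Fintype V]

namespace MinCex

variable {k : ℕ} {G : SimpleGraph V}

theorem filter_card_le_of_subset {p : V → Prop} [DecidablePred p] {S : Finset V}
    (h : ∀ w, p w → w ∈ S) :
    (univ.filter p).card ≤ S.card := by
  apply Finset.card_le_card
  intro w hw
  exact h w (Finset.mem_filter.1 hw).2

theorem adj_in_card {C : Finset V} {v u : V} (hu : u ∈ C) (h : G.Adj u v) :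
    1 ≤ (nb G v ∩ C).card :=
  Finset.card_pos.2 ⟨u, Finset.mem_inter.2 ⟨mem_nb.2 h.symm, hu⟩⟩

theorem adj_in_card2 {C : Finset V} {v u u' : V} (hu : u ∈ C) (h : G.Adj u v) (hu' : u' ∈ C)
    (h' : G.Adj u' v) (hne : u ≠ u') : 2 ≤ (nb G v ∩ C).card := by
  have : ({u, u'} : Finset V) ⊆ nb G v ∩ C := by
    intro w hw
    simp only [Finset.mem_insert, Finset.mem_singleton] at hw
    rcases hw with rfl | rfl
    · exact Finset.mem_inter.2 ⟨mem_nb.2 h.symm, hu⟩
    · exact Finset.mem_inter.2 ⟨mem_nb.2 h'.symm, hu'⟩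
  have h2 := Finset.card_le_card this
  rwa [Finset.card_pair hne] at h2

/-- a vertex with at least two neighbours in `C` has one different from `u0` -/
theorem exists_other {C : Finset V} {y : V} (h : 2 ≤ (nb G y ∩ C).card) (u0 : V) :
    ∃ u ∈ C, u ≠ u0 ∧ G.Adj u y := by
  obtain ⟨u, hu, hne⟩ := Finset.exists_mem_ne (show 1 < (nb G y ∩ C).card by omega) u0
  exact ⟨u, (Finset.mem_inter.1 hu).2, hne, (mem_nb.1 (Finset.mem_inter.1 hu).1).symm⟩

theorem mem_seen {C : Finset V} {ψ : V → Fin k} {u y : V} (h : G.Adj u y) (hy : y ∉ C) :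
    ψ y ∈ seen G C ψ u :=
  Finset.mem_image.2 ⟨y, Finset.mem_sdiff.2 ⟨mem_nb.2 h, hy⟩, rfl⟩

theorem seen_card {C : Finset V} {ψ : V → Fin k} {u : V} :
    (seen G C ψ u).card ≤ (nb G u \ C).card := Finset.card_image_le

/-- configuration A -/
theorem configA (hG : MinCex k G) (t : ℕ) (C : Finset V) (hC : G.IsClique (C : Set V))
    (hCt : k + 1 ≤ C.card + t) (u1 u2 y : V) (hu1 : u1 ∈ C) (hu2 : u2 ∈ C) (hy : y ∉ C)
    (hr : (nb G u1 \ C).card + C.card ≤ k + 1) (h1 : G.Adj u1 y) (h2 : ¬ G.Adj u2 y)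
    (hbig : t + 6 ≤ (nb G y ∩ C).card) : False := by
  have hne12 : u2 ≠ u1 := fun h => h2 (h ▸ h1)
  have hout := hG.out_le hC hu2
  obtain ⟨E, hE⟩ : ∃ E : V → V → Prop, ∀ a b, E a b ↔ (a = y ∧ G.Adj u2 b) :=
    ⟨fun a b => a = y ∧ G.Adj u2 b, fun _ _ => Iff.rfl⟩
  have hEy : (univ.filter (fun w => w ∉ C ∧ w ≠ y ∧ (E y w ∨ E w y))).card ≤
      (nb G u2 \ C).card := by
    apply filter_card_le_of_subset
    rintro w ⟨hw1, hw2, hw3⟩
    rw [hE, hE] at hw3
    rcases hw3 with ⟨-, h⟩ | ⟨-, h⟩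
    · exact Finset.mem_sdiff.2 ⟨mem_nb.2 h, hw1⟩
    · exact absurd h h2
  obtain ⟨ψ, hψ, Γ, hΓ⟩ := hG.conf2 C hC ⟨u1, hu1⟩ E {y} (by
    intro v hv
    by_cases hvy : v = y
    · subst hvy
      omega
    · by_cases hv2 : G.Adj u2 v
      · have : (univ.filter (fun w => w ∉ C ∧ w ≠ v ∧ (E v w ∨ E w v))).card
            ≤ ({y} : Finset V).card := by
          apply filter_card_le_of_subset
          rintro w ⟨hw1, hw2, hw3⟩
          rw [hE, hE] at hw3
          rcases hw3 with ⟨h, -⟩ | ⟨h, -⟩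
          · exact absurd h hvy
          · exact Finset.mem_singleton.2 h
        rw [Finset.card_singleton] at this
        have h3 := adj_in_card hu2 hv2
        omega
      · have : (univ.filter (fun w => w ∉ C ∧ w ≠ v ∧ (E v w ∨ E w v))).card
            ≤ (∅ : Finset V).card := by
          apply filter_card_le_of_subset
          rintro w ⟨hw1, hw2, hw3⟩
          rw [hE, hE] at hw3
          rcases hw3 with ⟨h, -⟩ | ⟨-, h⟩
          · exact absurd h hvy
          · exact absurd h hv2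
        rw [Finset.card_empty] at this
        omega) (by
    intro v hv _
    rw [Finset.mem_singleton] at hv
    subst hv
    omega) (by
    intro s hs hsB hsc
    apply hG.clq
    intro a ha b hb hab
    rcases addE_adj.1 (hsc ha hb hab) with h | ⟨-, h⟩
    · exact h
    · rw [hE, hE] at h
      rcases h with ⟨h, -⟩ | ⟨h, -⟩
      · exact absurd (Finset.mem_singleton.2 h) (fun h' => (Finset.disjoint_left.1 hsB ha) h')
      · exact absurd (Finset.mem_singleton.2 h) (fun h' => (Finset.disjoint_left.1 hsB hb) h'))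
  have hnot : ψ y ∉ seen G C ψ u2 := by
    intro h
    obtain ⟨w, hw, hw'⟩ := Finset.mem_image.1 h
    obtain ⟨hw1, hw2⟩ := Finset.mem_sdiff.1 hw
    have hwy : y ≠ w := fun h => h2 (h ▸ mem_nb.1 hw1)
    exact hψ y w hy hw2 hwy ((hE _ _).2 ⟨rfl, mem_nb.1 hw1⟩) hw'.symm
  rcases hΓ with ⟨hc, hsub⟩ | ⟨hc, u0, hu0, heq⟩
  · have e1 := hsub u1 hu1
    have e2 : Γ = seen G C ψ u1 := by
      apply Finset.eq_of_subset_of_card_le e1
      have := seen_card (G := G) (C := C) (ψ := ψ) (u := u1)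
      omega
    have e3 : ψ y ∈ Γ := e2 ▸ mem_seen h1 hy
    exact hnot (hsub u2 hu2 e3)
  · have hu10 : u1 = u0 := by
      by_contra hne
      have e1 := heq u1 hu1 hne
      have := seen_card (G := G) (C := C) (ψ := ψ) (u := u1)
      rw [e1] at this
      omega
    obtain ⟨u3, hu3, hne3, hadj3⟩ := exists_other (G := G) (C := C) (y := y) (by omega) u0
    have e1 := heq u3 hu3 hne3
    have e2 := heq u2 hu2 (hu10 ▸ hne12)
    apply hnot
    rw [e2, ← e1]
    exact mem_seen hadj3 hy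

/-- configuration B -/
theorem configB (hG : MinCex k G) (t : ℕ) (C : Finset V) (hC : G.IsClique (C : Set V))
    (hCt : k + 1 ≤ C.card + t) (u1 u2 u3 y y' : V) (hu1 : u1 ∈ C) (hu2 : u2 ∈ C) (hu3 : u3 ∈ C)
    (hu23 : u2 ≠ u3) (hy : y ∉ C) (hy' : y' ∉ C) (hyy : y ≠ y')
    (h1 : G.Adj u1 y) (h1' : G.Adj u1 y') (h2 : ¬ G.Adj u2 y) (h3 : ¬ G.Adj u3 y')
    (hbig : t + 6 ≤ (nb G y ∩ C).card) (hbig' : t + 6 ≤ (nb G y' ∩ C).card) : False := by
  have hout2 := hG.out_le hC hu2
  have hout3 := hG.out_le hC hu3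
  have hout1 := hG.out_le hC hu1
  obtain ⟨E, hE⟩ : ∃ E : V → V → Prop, ∀ a b, E a b ↔
      ((a = y ∧ G.Adj u2 b) ∨ (a = y' ∧ G.Adj u3 b)) :=
    ⟨fun a b => (a = y ∧ G.Adj u2 b) ∨ (a = y' ∧ G.Adj u3 b), fun _ _ => Iff.rfl⟩
  have hEy : (univ.filter (fun w => w ∉ C ∧ w ≠ y ∧ (E y w ∨ E w y))).card + 3 ≤
      (nb G y ∩ C).card := by
    have : (univ.filter (fun w => w ∉ C ∧ w ≠ y ∧ (E y w ∨ E w y))).card
          ≤ (insert y' (nb G u2 \ C)).card := by
      apply filter_card_le_of_subset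
      rintro w ⟨hw1, hw2, hw3⟩
      rw [hE, hE] at hw3
      rcases hw3 with (⟨-, h⟩ | ⟨h, -⟩) | (⟨h, -⟩ | ⟨h, -⟩)
      · exact Finset.mem_insert_of_mem (Finset.mem_sdiff.2 ⟨mem_nb.2 h, hw1⟩)
      · exact absurd h hyy
      · exact absurd h hw2
      · exact h ▸ Finset.mem_insert_self _ _
    have h4 := Finset.card_insert_le y' (nb G u2 \ C)
    omega
  have hEy' : (univ.filter (fun w => w ∉ C ∧ w ≠ y' ∧ (E y' w ∨ E w y'))).card + 3 ≤
      (nb G y' ∩ C).card := by
    have : (univ.filter (fun w => w ∉ C ∧ w ≠ y' ∧ (E y' w ∨ E w y'))).card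
          ≤ (insert y (nb G u3 \ C)).card := by
      apply filter_card_le_of_subset
      rintro w ⟨hw1, hw2, hw3⟩
      rw [hE, hE] at hw3
      rcases hw3 with (⟨h, -⟩ | ⟨-, h⟩) | (⟨h, -⟩ | ⟨h, -⟩)
      · exact absurd h.symm hyy
      · exact Finset.mem_insert_of_mem (Finset.mem_sdiff.2 ⟨mem_nb.2 h, hw1⟩)
      · exact h ▸ Finset.mem_insert_self _ _
      · exact absurd h hw2
    have h4 := Finset.card_insert_le y (nb G u3 \ C)
    omega
  obtain ⟨ψ, hψ, Γ, hΓ⟩ := hG.conf2 C hC ⟨u1, hu1⟩ E {y, y'} (by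
    intro v hv
    by_cases hvy : v = y
    · subst hvy; omega
    by_cases hvy' : v = y'
    · subst hvy'; omega
    have : (univ.filter (fun w => w ∉ C ∧ w ≠ v ∧ (E v w ∨ E w v))).card
          ≤ ((if G.Adj u2 v then {y} else ∅) ∪ (if G.Adj u3 v then {y'} else ∅) : Finset V).card := by
      apply filter_card_le_of_subset
      rintro w ⟨hw1, hw2, hw3⟩
      rw [hE, hE] at hw3
      rcases hw3 with (⟨h, -⟩ | ⟨h, -⟩) | (⟨h, h'⟩ | ⟨h, h'⟩)
      · exact absurd h hvy
      · exact absurd h hvy'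
      · simp [h, h']
      · simp [h, h']
    by_cases hv2 : G.Adj u2 v
    · by_cases hv3 : G.Adj u3 v
      · have h4 := adj_in_card2 hu2 hv2 hu3 hv3 hu23
        have h5 : ((if G.Adj u2 v then {y} else ∅) ∪ (if G.Adj u3 v then {y'} else ∅) : Finset V).card ≤ 2 := by
          rw [if_pos hv2, if_pos hv3]
          exact (Finset.card_union_le _ _).trans (by simp)
        omega
      · have h4 := adj_in_card hu2 hv2
        have h5 : ((if G.Adj u2 v then {y} else ∅) ∪ (if G.Adj u3 v then {y'} else ∅) : Finset V).card ≤ 1 := by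
          rw [if_pos hv2, if_neg hv3]
          simp
        omega
    · by_cases hv3 : G.Adj u3 v
      · have h4 := adj_in_card hu3 hv3
        have h5 : ((if G.Adj u2 v then {y} else ∅) ∪ (if G.Adj u3 v then {y'} else ∅) : Finset V).card ≤ 1 := by
          rw [if_neg hv2, if_pos hv3]
          simp
        omega
      · have h5 : ((if G.Adj u2 v then {y} else ∅) ∪ (if G.Adj u3 v then {y'} else ∅) : Finset V).card ≤ 0 := by
          rw [if_neg hv2, if_neg hv3]
          simp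
        omega) (by
    intro v hv _
    simp only [Finset.mem_insert, Finset.mem_singleton] at hv
    rcases hv with rfl | rfl
    · exact hEy
    · exact hEy') (by
    intro s hs hsB hsc
    have hns : y ∉ s := fun h => (Finset.disjoint_left.1 hsB h) (by simp)
    have hns' : y' ∉ s := fun h => (Finset.disjoint_left.1 hsB h) (by simp)
    apply hG.clq
    intro a ha b hb hab
    rcases addE_adj.1 (hsc ha hb hab) with h | ⟨-, h⟩
    · exact h
    rw [hE, hE] at h
    rcases h with ((⟨h, -⟩ | ⟨h, -⟩) | (⟨h, -⟩ | ⟨h, -⟩))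
    · exact absurd (h ▸ ha) hns
    · exact absurd (h ▸ ha) hns'
    · exact absurd (h ▸ hb) hns
    · exact absurd (h ▸ hb) hns')
  have hnot : ψ y ∉ seen G C ψ u2 := by
    intro h
    obtain ⟨w, hw, hw'⟩ := Finset.mem_image.1 h
    obtain ⟨hw1, hw2⟩ := Finset.mem_sdiff.1 hw
    have hwy : y ≠ w := fun h => h2 (h ▸ mem_nb.1 hw1)
    exact hψ y w hy hw2 hwy ((hE _ _).2 (Or.inl ⟨rfl, mem_nb.1 hw1⟩)) hw'.symm
  have hnot' : ψ y' ∉ seen G C ψ u3 := by
    intro h
    obtain ⟨w, hw, hw'⟩ := Finset.mem_image.1 h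
    obtain ⟨hw1, hw2⟩ := Finset.mem_sdiff.1 hw
    have hwy : y' ≠ w := fun h => h3 (h ▸ mem_nb.1 hw1)
    exact hψ y' w hy' hw2 hwy ((hE _ _).2 (Or.inr ⟨rfl, mem_nb.1 hw1⟩)) hw'.symm
  have my := mem_seen (ψ := ψ) h1 hy
  have my' := mem_seen (ψ := ψ) h1' hy'
  rcases hΓ with ⟨hc, hsub⟩ | ⟨hc, u0, hu0, heq⟩
  · have nΓ : ψ y ∉ Γ := fun h => hnot (hsub u2 hu2 h)
    have nΓ' : ψ y' ∉ Γ := fun h => hnot' (hsub u3 hu3 h)
    by_cases hcol : ψ y = ψ y'
    · have e1 : seen G C ψ u1 ⊆ ((nb G u1 \ C).erase y').image ψ := by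
        intro c hc
        obtain ⟨w, hw, rfl⟩ := Finset.mem_image.1 hc
        by_cases hwy : w = y'
        · subst hwy
          exact Finset.mem_image.2 ⟨y, Finset.mem_erase.2 ⟨hyy, Finset.mem_sdiff.2 ⟨mem_nb.2 h1, hy⟩⟩, hcol⟩
        · exact Finset.mem_image.2 ⟨w, Finset.mem_erase.2 ⟨hwy, hw⟩, rfl⟩
      have e2 := (Finset.card_le_card e1).trans Finset.card_image_le
      have hmem : y' ∈ nb G u1 \ C := Finset.mem_sdiff.2 ⟨mem_nb.2 h1', hy'⟩
      have e3 := Finset.card_erase_of_mem hmem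
      have e4 : 0 < (nb G u1 \ C).card := Finset.card_pos.2 ⟨_, hmem⟩
      have e5 : insert (ψ y) Γ ⊆ seen G C ψ u1 :=
        Finset.insert_subset my (hsub u1 hu1)
      have e6 := Finset.card_le_card e5
      rw [Finset.card_insert_of_notMem nΓ] at e6
      omega
    · have e5 : insert (ψ y) (insert (ψ y') Γ) ⊆ seen G C ψ u1 :=
        Finset.insert_subset my (Finset.insert_subset my' (hsub u1 hu1))
      have e6 := Finset.card_le_card e5
      rw [Finset.card_insert_of_notMem (by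
        rw [Finset.mem_insert]; push Not; exact ⟨hcol, nΓ⟩), Finset.card_insert_of_notMem nΓ'] at e6
      have := seen_card (G := G) (C := C) (ψ := ψ) (u := u1)
      omega
  · by_cases h20 : u2 = u0
    · have h30 : u3 ≠ u0 := fun h => hu23 (h20.trans h.symm)
      obtain ⟨u, hu, hne, hadj⟩ := exists_other (G := G) (C := C) (y := y') (by omega) u0
      apply hnot'
      rw [heq u3 hu3 h30, ← heq u hu hne]
      exact mem_seen hadj hy'
    · obtain ⟨u, hu, hne, hadj⟩ := exists_other (G := G) (C := C) (y := y) (by omega) u0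
      apply hnot
      rw [heq u2 hu2 h20, ← heq u hu hne]
      exact mem_seen hadj hy

/-- adding the edge `z z'` outside `C` creates no clique on `k` vertices -/
def GoodPair (k : ℕ) (G : SimpleGraph V) (C : Finset V) (z z' : V) : Prop :=
  ∀ s : Finset V, Disjoint s C →
    (∀ a ∈ s, ∀ b ∈ s, a ≠ b → G.Adj a b ∨ (a = z ∧ b = z') ∨ (a = z' ∧ b = z)) → s.card < k

/-- configuration alpha -/
theorem configAlpha (hG : MinCex k G) (C : Finset V) (hC : G.IsClique (C : Set V))
    (hC1 : C.card + 1 = k) (u1 u2 y0 z1 z2 : V) (hu1 : u1 ∈ C) (hu2 : u2 ∈ C)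
    (hz1 : z1 ∉ C) (hz2 : z2 ∉ C) (hz : z1 ≠ z2) (hy1 : y0 ≠ z1) 
    (h1 : nb G u1 \ C = {y0, z1}) (h2 : nb G u2 \ C = {y0, z2})
    (hgood : GoodPair k G C z1 z2) : False := by
  have a1 : G.Adj u1 z1 := by
    have : z1 ∈ nb G u1 \ C := by rw [h1]; simp
    exact mem_nb.1 (Finset.mem_sdiff.1 this).1
  have a2 : G.Adj u2 z2 := by
    have : z2 ∈ nb G u2 \ C := by rw [h2]; simp
    exact mem_nb.1 (Finset.mem_sdiff.1 this).1
  have hu12 : u1 ≠ u2 := by
    rintro rfl
    have : z1 ∈ ({y0, z2} : Finset V) := by rw [← h2, h1]; simp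
    simp only [Finset.mem_insert, Finset.mem_singleton] at this
    rcases this with h | h
    · exact hy1 h.symm
    · exact hz h
  obtain ⟨E, hE⟩ : ∃ E : V → V → Prop, ∀ a b, E a b ↔ (a = z1 ∧ b = z2) :=
    ⟨fun a b => a = z1 ∧ b = z2, fun _ _ => Iff.rfl⟩
  obtain ⟨ψ, hψ, Γ, hΓ⟩ := hG.conf2 C hC ⟨u1, hu1⟩ E ∅ (by
    intro v hv
    by_cases hv1 : v = z1
    · subst hv1
      have : (univ.filter (fun w => w ∉ C ∧ w ≠ v ∧ (E v w ∨ E w v))).card
          ≤ ({z2} : Finset V).card := by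
        apply filter_card_le_of_subset
        rintro w ⟨hw1, hw2, hw3⟩
        rw [hE, hE] at hw3
        rcases hw3 with ⟨-, h⟩ | ⟨-, h⟩
        · exact Finset.mem_singleton.2 h
        · exact absurd h hz
      rw [Finset.card_singleton] at this
      have := adj_in_card hu1 a1
      omega
    · by_cases hv2 : v = z2
      · subst hv2
        have : (univ.filter (fun w => w ∉ C ∧ w ≠ v ∧ (E v w ∨ E w v))).card
            ≤ ({z1} : Finset V).card := by
          apply filter_card_le_of_subset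
          rintro w ⟨hw1, hw2, hw3⟩
          rw [hE, hE] at hw3
          rcases hw3 with ⟨h, -⟩ | ⟨h, -⟩
          · exact absurd h hv1
          · exact Finset.mem_singleton.2 h
        rw [Finset.card_singleton] at this
        have := adj_in_card hu2 a2
        omega
      · have : (univ.filter (fun w => w ∉ C ∧ w ≠ v ∧ (E v w ∨ E w v))).card
            ≤ (∅ : Finset V).card := by
          apply filter_card_le_of_subset
          rintro w ⟨hw1, hw2, hw3⟩
          rw [hE, hE] at hw3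
          rcases hw3 with ⟨h, -⟩ | ⟨-, h⟩
          · exact absurd h hv1
          · exact absurd h hv2
        rw [Finset.card_empty] at this
        omega) (by
    intro v hv _
    exact absurd hv (Finset.notMem_empty _)) (by
    intro s hs _ hsc
    apply hgood s hs
    intro a ha b hb hab
    rcases addE_adj.1 (hsc ha hb hab) with h | ⟨-, h⟩
    · exact Or.inl h
    · rw [hE, hE] at h
      rcases h with ⟨h, h'⟩ | ⟨h, h'⟩
      · exact Or.inr (Or.inl ⟨h, h'⟩)
      · exact Or.inr (Or.inr ⟨h', h⟩))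
  have hne := hψ z1 z2 hz1 hz2 hz ((hE _ _).2 ⟨rfl, rfl⟩)
  have s1 : seen G C ψ u1 = {ψ y0, ψ z1} := by
    unfold seen; rw [h1, Finset.image_insert, Finset.image_singleton]
  have s2 : seen G C ψ u2 = {ψ y0, ψ z2} := by
    unfold seen; rw [h2, Finset.image_insert, Finset.image_singleton]
  rcases hΓ with ⟨hc, hsub⟩ | ⟨hc, u0, hu0, heq⟩
  · have e1 := hsub u1 hu1
    have e2 := hsub u2 hu2
    rw [s1] at e1
    rw [s2] at e2
    have f1 : Γ = {ψ y0, ψ z1} := Finset.eq_of_subset_of_card_le e1 (Finset.card_le_two.trans (by omega))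
    have f2 : Γ = {ψ y0, ψ z2} := Finset.eq_of_subset_of_card_le e2 (Finset.card_le_two.trans (by omega))
    have g1 : ψ z1 ∈ Γ := by rw [f1]; simp
    rw [f2] at g1
    simp only [Finset.mem_insert, Finset.mem_singleton] at g1
    rcases g1 with g | g
    · have : Γ.card ≤ 1 := by
        rw [f1, g]; simp
      omega
    · exact hne g
  · have hcases : u1 ≠ u0 ∨ u2 ≠ u0 := by
      by_contra h
      push Not at h
      exact hu12 (h.1.trans h.2.symm)
    rcases hcases with h | h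
    · have e1 := heq u1 hu1 h
      rw [s1] at e1
      have : Γ.card ≤ 2 := by rw [← e1]; exact Finset.card_le_two
      omega
    · have e1 := heq u2 hu2 h
      rw [s2] at e1
      have : Γ.card ≤ 2 := by rw [← e1]; exact Finset.card_le_two
      omega

/-- configuration beta -/
theorem configBeta (hG : MinCex k G) (C : Finset V) (hC : G.IsClique (C : Set V))
    (hC1 : C.card + 1 = k) (u1 u2 u3 y0 y1 z1 z2 : V) (hu1 : u1 ∈ C) (hu2 : u2 ∈ C) (hu3 : u3 ∈ C)
    (hy1 : y1 ∉ C) (hz1 : z1 ∉ C) (hz2 : z2 ∉ C) (hz : z1 ≠ z2) (hyz1 : y1 ≠ z1) (hyz2 : y1 ≠ z2)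
    (h1 : nb G u1 \ C = {y0, y1, z1}) (h2 : nb G u2 \ C = {y0, y1, z2})
    (h3 : ¬ G.Adj u3 y1) (hbig : 8 ≤ (nb G y1 ∩ C).card)
    (hgood : GoodPair k G C z1 z2) : False := by
  have a1 : G.Adj u1 z1 := by
    have : z1 ∈ nb G u1 \ C := by rw [h1]; simp
    exact mem_nb.1 (Finset.mem_sdiff.1 this).1
  have a2 : G.Adj u2 z2 := by
    have : z2 ∈ nb G u2 \ C := by rw [h2]; simp
    exact mem_nb.1 (Finset.mem_sdiff.1 this).1
  have b1 : G.Adj u1 y1 := by
    have : y1 ∈ nb G u1 \ C := by rw [h1]; simp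
    exact mem_nb.1 (Finset.mem_sdiff.1 this).1
  have b2 : G.Adj u2 y1 := by
    have : y1 ∈ nb G u2 \ C := by rw [h2]; simp
    exact mem_nb.1 (Finset.mem_sdiff.1 this).1
  have hu13 : u1 ≠ u3 := fun h => h3 (h ▸ b1)
  have hu23 : u2 ≠ u3 := fun h => h3 (h ▸ b2)
  have hout3 := hG.out_le hC hu3
  obtain ⟨E, hE⟩ : ∃ E : V → V → Prop, ∀ a b, E a b ↔
      ((a = z1 ∧ b = z2) ∨ (a = y1 ∧ G.Adj u3 b)) :=
    ⟨fun a b => (a = z1 ∧ b = z2) ∨ (a = y1 ∧ G.Adj u3 b), fun _ _ => Iff.rfl⟩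
  have hEy : (univ.filter (fun w => w ∉ C ∧ w ≠ y1 ∧ (E y1 w ∨ E w y1))).card + 3 ≤
      (nb G y1 ∩ C).card := by
    have : (univ.filter (fun w => w ∉ C ∧ w ≠ y1 ∧ (E y1 w ∨ E w y1))).card
          ≤ (nb G u3 \ C).card := by
      apply filter_card_le_of_subset
      rintro w ⟨hw1, hw2, hw3⟩
      rw [hE, hE] at hw3
      rcases hw3 with (⟨h, -⟩ | ⟨-, h⟩) | (⟨-, h⟩ | ⟨h, -⟩)
      · exact absurd h hyz1
      · exact Finset.mem_sdiff.2 ⟨mem_nb.2 h, hw1⟩
      · exact absurd h hyz2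
      · exact absurd h hw2
    omega
  obtain ⟨ψ, hψ, Γ, hΓ⟩ := hG.conf2 C hC ⟨u1, hu1⟩ E {y1} (by
    intro v hv
    by_cases hvy : v = y1
    · subst hvy; omega
    -- the added neighbours of `v`
    have hb : (univ.filter (fun w => w ∉ C ∧ w ≠ v ∧ (E v w ∨ E w v))).card
          ≤ (if v = z1 then 1 else 0) + (if v = z2 then 1 else 0) + (if G.Adj u3 v then 1 else 0) := by
      have : (univ.filter (fun w => w ∉ C ∧ w ≠ v ∧ (E v w ∨ E w v))).card
          ≤ ((if v = z1 then {z2} else ∅) ∪ (if v = z2 then {z1} else ∅) ∪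
              (if G.Adj u3 v then {y1} else ∅) : Finset V).card := by
        apply filter_card_le_of_subset
        rintro w ⟨hw1, hw2, hw3⟩
        rw [hE, hE] at hw3
        rcases hw3 with (⟨h, h'⟩ | ⟨h, -⟩) | (⟨h, h'⟩ | ⟨h, h'⟩)
        · simp [h, h']
        · exact absurd h hvy
        · simp [h, h']
        · simp [h, h']
      refine this.trans ((Finset.card_union_le _ _).trans ?_)
      refine Nat.add_le_add ((Finset.card_union_le _ _).trans (Nat.add_le_add ?_ ?_)) ?_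
      · split_ifs <;> simp
      · split_ifs <;> simp
      · split_ifs <;> simp
    refine hb.trans ?_
    by_cases hv1 : v = z1
    · have hv2 : v ≠ z2 := fun h => hz (hv1.symm.trans h)
      rw [if_pos hv1, if_neg hv2]
      by_cases h : G.Adj u3 v
      · rw [if_pos h]
        exact adj_in_card2 hu1 (hv1 ▸ a1) hu3 h hu13
      · rw [if_neg h]
        exact adj_in_card hu1 (hv1 ▸ a1)
    · rw [if_neg hv1]
      by_cases hv2 : v = z2
      · rw [if_pos hv2]
        by_cases h : G.Adj u3 v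
        · rw [if_pos h]
          exact adj_in_card2 hu2 (hv2 ▸ a2) hu3 h hu23
        · rw [if_neg h]
          exact adj_in_card hu2 (hv2 ▸ a2)
      · rw [if_neg hv2]
        by_cases h : G.Adj u3 v
        · rw [if_pos h]
          exact adj_in_card hu3 h
        · rw [if_neg h]
          exact Nat.zero_le _) (by
    intro v hv _
    rw [Finset.mem_singleton] at hv
    subst hv
    exact hEy) (by
    intro s hs hsB hsc
    have hns : y1 ∉ s := fun h => (Finset.disjoint_left.1 hsB h) (by simp)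
    apply hgood s hs
    intro a ha b hb hab
    rcases addE_adj.1 (hsc ha hb hab) with h | ⟨-, h⟩
    · exact Or.inl h
    rw [hE, hE] at h
    rcases h with ((⟨h, h'⟩ | ⟨h, -⟩) | (⟨h, h'⟩ | ⟨h, -⟩))
    · exact Or.inr (Or.inl ⟨h, h'⟩)
    · exact absurd (h ▸ ha) hns
    · exact Or.inr (Or.inr ⟨h', h⟩)
    · exact absurd (h ▸ hb) hns)
  have hne := hψ z1 z2 hz1 hz2 hz ((hE _ _).2 (Or.inl ⟨rfl, rfl⟩))
  have hnot : ψ y1 ∉ seen G C ψ u3 := by
    intro h
    obtain ⟨w, hw, hw'⟩ := Finset.mem_image.1 h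
    obtain ⟨hw1, hw2⟩ := Finset.mem_sdiff.1 hw
    have hwy : y1 ≠ w := fun h => h3 (h ▸ mem_nb.1 hw1)
    exact hψ y1 w hy1 hw2 hwy ((hE _ _).2 (Or.inr ⟨rfl, mem_nb.1 hw1⟩)) hw'.symm
  have s1 : seen G C ψ u1 = {ψ y0, ψ y1, ψ z1} := by
    unfold seen; rw [h1, Finset.image_insert, Finset.image_insert, Finset.image_singleton]
  have s2 : seen G C ψ u2 = {ψ y0, ψ y1, ψ z2} := by
    unfold seen; rw [h2, Finset.image_insert, Finset.image_insert, Finset.image_singleton]
  rcases hΓ with ⟨hc, hsub⟩ | ⟨hc, u0, hu0, heq⟩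
  · have nΓ : ψ y1 ∉ Γ := fun h => hnot (hsub u3 hu3 h)
    have e1 : Γ ⊆ {ψ y0, ψ z1} := by
      intro c hc
      have h := hsub u1 hu1 hc
      rw [s1] at h
      simp only [Finset.mem_insert, Finset.mem_singleton] at h ⊢
      rcases h with h | h | h
      · exact Or.inl h
      · exact absurd (h ▸ hc) nΓ
      · exact Or.inr h
    have e2 : Γ ⊆ {ψ y0, ψ z2} := by
      intro c hc
      have h := hsub u2 hu2 hc
      rw [s2] at h
      simp only [Finset.mem_insert, Finset.mem_singleton] at h ⊢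
      rcases h with h | h | h
      · exact Or.inl h
      · exact absurd (h ▸ hc) nΓ
      · exact Or.inr h
    have f1 : Γ = {ψ y0, ψ z1} := Finset.eq_of_subset_of_card_le e1 (Finset.card_le_two.trans (by omega))
    have f2 : Γ = {ψ y0, ψ z2} := Finset.eq_of_subset_of_card_le e2 (Finset.card_le_two.trans (by omega))
    have g1 : ψ z1 ∈ Γ := by rw [f1]; simp
    rw [f2] at g1
    simp only [Finset.mem_insert, Finset.mem_singleton] at g1
    rcases g1 with g | g
    · have : Γ.card ≤ 1 := by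
        rw [f1, g]; simp
      omega
    · exact hne g
  · obtain ⟨u, hu, hneu, hadj⟩ := exists_other (G := G) (C := C) (y := y1) (by omega) u0
    have hyΓ : ψ y1 ∈ Γ := by
      rw [← heq u hu hneu]
      exact mem_seen hadj hy1
    have h30 : u3 = u0 := by
      by_contra h
      apply hnot
      rw [heq u3 hu3 h]
      exact hyΓ
    have e1 := heq u1 hu1 (h30 ▸ hu13)
    have e2 := heq u2 hu2 (h30 ▸ hu23)
    rw [s1] at e1
    rw [s2] at e2
    have g1 : ψ z1 ∈ Γ := by rw [← e1]; simp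
    rw [← e2] at g1
    simp only [Finset.mem_insert, Finset.mem_singleton] at g1
    rcases g1 with g | g | g
    · have : Γ.card ≤ 2 := by
        rw [← e1, g]
        refine (Finset.card_le_card (t := {ψ y0, ψ y1}) ?_).trans Finset.card_le_two
        intro c hc
        simp only [Finset.mem_insert, Finset.mem_singleton] at hc ⊢
        tauto
      omega
    · have : Γ.card ≤ 2 := by
        rw [← e1, g]
        refine (Finset.card_le_card (t := {ψ y0, ψ y1}) ?_).trans Finset.card_le_two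
        intro c hc
        simp only [Finset.mem_insert, Finset.mem_singleton] at hc ⊢
        tauto
      omega
    · exact hne g

end MinCex

end Pool.Agent.TH451.BK
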