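import Mathlib

set_option autoImplicit false

namespace Pool.Agent.TH451.BK

open Finset
open scoped Classical

variable {V : Type} [Fintype V]

/-- neighbourhood of a vertex as a finset -/
noncomputable def nb (G : SimpleGraph V) (v : V) : Finset V :=
  univ.filter (fun w => G.Adj v w)

/-- non-neighbours of `x` inside the neighbourhood of `v`, other than `x` itself -/
noncomputable def nn (G : SimpleGraph V) (v x : V) : Finset V :=
  univ.filter (fun y => G.Adj v y ∧ y ≠ x ∧ ¬ G.Adj x y)

/-- number of ordered nonadjacent pairs in the neighbourhood of `v` -/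
noncomputable def prs (G : SimpleGraph V) (v : V) : ℕ :=
  ∑ x ∈ nb G v, (nn G v x).card

/-- `ψ` is a proper colouring of the subgraph induced on `W` -/
def PropOn {K : Type} (G : SimpleGraph V) (W : Finset V) (ψ : V → K) : Prop :=
  ∀ x ∈ W, ∀ y ∈ W, G.Adj x y → ψ x ≠ ψ y

/-- minimal counterexample to: max degree at most k+1 and no clique on k vertices
imply k-colourable -/
structure MinCex (k : ℕ) (G : SimpleGraph V) : Prop where
  deg : ∀ v, (nb G v).card ≤ k + 1
  clq : ∀ s : Finset V, G.IsClique (s : Set V) → s.card < k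
  nocol : ¬ ∃ f : V → Fin k, PropOn G univ f
  min : ∀ (W : Finset V) (G' : SimpleGraph V), W ≠ univ →
    (∀ v ∈ W, (nb G' v ∩ W).card ≤ k + 1) →
    (∀ s : Finset V, s ⊆ W → G'.IsClique (s : Set V) → s.card < k) →
    ∃ f : V → Fin k, PropOn G' W f

/-- pairwise disjoint cliques of size at least k+1-t -/
structure Fam (k t : ℕ) (G : SimpleGraph V) (F : Finset (Finset V)) : Prop where
  clq : ∀ C ∈ F, G.IsClique (C : Set V)
  big : ∀ C ∈ F, k + 1 ≤ C.card + t
  disj : ∀ C ∈ F, ∀ C' ∈ F, C ≠ C' → Disjoint C C'

/-- such a family covering as many vertices as possible -/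
structure MaxFam (k t : ℕ) (G : SimpleGraph V) (F : Finset (Finset V)) : Prop
    extends Fam k t G F where
  max : ∀ F' : Finset (Finset V), Fam k t G F' → (F'.biUnion id).card ≤ (F.biUnion id).card

/-- `m` spread-out triples `(u j; y j, y' j)` with `u j ∈ C` and `y j, y' j` neighbours of `u j`
outside `C`, all distinct -/
structure Spread (G : SimpleGraph V) (C : Finset V) {m : ℕ} (u y y' : Fin m → V) : Prop where
  uC : ∀ j, u j ∈ C
  yC : ∀ j, y j ∉ C
  yC' : ∀ j, y' j ∉ C
  adj : ∀ j, G.Adj (u j) (y j)
  adj' : ∀ j, G.Adj (u j) (y' j)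
  injU : Function.Injective u
  injY : Function.Injective y
  injY' : Function.Injective y'
  yy : ∀ i j, y i ≠ y' j

/-- vertex `x` is activated for colour `c` in the sample `ω` -/
def act {k N : ℕ} (ω : V → Fin k → Fin N) (x : V) (c : Fin k) : Prop := (ω x c).val = 0

/-- vertex `x` is activated for colour `c` and none of its neighbours is -/
def ret {k N : ℕ} (G : SimpleGraph V) (ω : V → Fin k → Fin N) (x : V) (c : Fin k) : Prop :=
  act ω x c ∧ ∀ y, G.Adj x y → ¬ act ω y c

/-- `c` is the smallest colour with `ret G ω x c`; this is a partial proper colouring -/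
def isCol {k N : ℕ} (G : SimpleGraph V) (ω : V → Fin k → Fin N) (x : V) (c : Fin k) : Prop :=
  ret G ω x c ∧ ∀ c' < c, ¬ ret G ω x c'

end Pool.Agent.TH451.BK
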