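import Pool.Agent.TH451.BK.Defs

set_option autoImplicit false

namespace Pool.Agent.TH451.BK

open Finset
open scoped Classical

variable {V : Type} [Fintype V]

theorem mem_nb {G : SimpleGraph V} {v w : V} : w ∈ nb G v ↔ G.Adj v w := by
  simp [nb]

theorem greedy {k : ℕ} (G : SimpleGraph V) (R : Finset V) : ∀ (W : Finset V) (ψ : V → Fin k),
    Disjoint W R → PropOn G W ψ →
    (∀ u ∈ R, ((nb G u ∩ W).image ψ).card + (nb G u ∩ R).card < k) →
    ∃ ψ' : V → Fin k, PropOn G (W ∪ R) ψ' ∧ ∀ x ∈ W, ψ' x = ψ x := by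
  induction R using Finset.induction_on with
  | empty =>
    intro W ψ _ h1 _
    refine ⟨ψ, ?_, fun _ _ => rfl⟩
    simpa using h1
  | insert a R haR ih =>
    intro W ψ hd hp hc
    have haW : a ∉ W := by
      intro h
      exact (Finset.disjoint_left.1 hd h) (Finset.mem_insert_self _ _)
    have h1 := hc a (Finset.mem_insert_self _ _)
    have h2 : ((nb G a ∩ W).image ψ).card < (univ : Finset (Fin k)).card := by
      rw [Finset.card_univ, Fintype.card_fin]; omega
    obtain ⟨c, -, hcn⟩ := Finset.exists_mem_notMem_of_card_lt_card h2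
    let ψ1 : V → Fin k := fun x => if x = a then c else ψ x
    have hψ1 : ∀ x ∈ W, ψ1 x = ψ x := by
      intro x hx
      have : x ≠ a := fun h => haW (h ▸ hx)
      simp [ψ1, this]
    have hcn' : ∀ x ∈ W, G.Adj a x → ψ x ≠ c := by
      intro x hx hax hxc
      apply hcn
      rw [Finset.mem_image]
      exact ⟨x, Finset.mem_inter.2 ⟨mem_nb.2 hax, hx⟩, hxc⟩
    have hprop1 : PropOn G (insert a W) ψ1 := by
      intro x hx y hy hxy
      rcases Finset.mem_insert.1 hx with rfl | hx'
      · rcases Finset.mem_insert.1 hy with rfl | hy'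
        · exact absurd hxy (G.loopless.irrefl _)
        · have := hcn' y hy' hxy
          rw [hψ1 y hy']
          simp only [ψ1, if_true]
          exact fun h => this h.symm
      · rcases Finset.mem_insert.1 hy with rfl | hy'
        · have := hcn' x hx' hxy.symm
          rw [hψ1 x hx']
          simp only [ψ1, if_true]
          exact this
        · rw [hψ1 x hx', hψ1 y hy']
          exact hp x hx' y hy' hxy
    have hd1 : Disjoint (insert a W) R := by
      rw [Finset.disjoint_left]
      intro x hx hxR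
      rcases Finset.mem_insert.1 hx with rfl | hx'
      · exact haR hxR
      · exact (Finset.disjoint_left.1 hd hx') (Finset.mem_insert_of_mem hxR)
    obtain ⟨ψ', hψ', hag⟩ := ih (insert a W) ψ1 hd1 hprop1 (by
      intro u hu
      have hu1 := hc u (Finset.mem_insert_of_mem hu)
      by_cases hua : G.Adj u a
      · have e1 : (nb G u ∩ insert a W).image ψ1 ⊆ insert c ((nb G u ∩ W).image ψ) := by
          intro b hb
          obtain ⟨x, hx, rfl⟩ := Finset.mem_image.1 hb
          obtain ⟨hx1, hx2⟩ := Finset.mem_inter.1 hx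
          rcases Finset.mem_insert.1 hx2 with rfl | hx'
          · simp [ψ1]
          · rw [hψ1 x hx']
            exact Finset.mem_insert_of_mem (Finset.mem_image.2 ⟨x, Finset.mem_inter.2 ⟨hx1, hx'⟩, rfl⟩)
        have e2 : (nb G u ∩ insert a R) = insert a (nb G u ∩ R) := by
          rw [Finset.inter_insert_of_mem (mem_nb.2 hua)]
        have e3 : (nb G u ∩ insert a R).card = (nb G u ∩ R).card + 1 := by
          rw [e2, Finset.card_insert_of_notMem]
          exact fun h => haR (Finset.mem_inter.1 h).2
        have e4 := (Finset.card_le_card e1).trans (Finset.card_insert_le _ _)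
        omega
      · have e1 : nb G u ∩ insert a W = nb G u ∩ W := by
          rw [Finset.inter_insert_of_notMem]
          exact fun h => hua (mem_nb.1 h)
        have e1' : (nb G u ∩ W).image ψ1 = (nb G u ∩ W).image ψ := by
          apply Finset.image_congr
          intro x hx
          exact hψ1 x (Finset.mem_inter.1 (Finset.mem_coe.1 hx)).2
        have e2 : nb G u ∩ insert a R = nb G u ∩ R := by
          rw [Finset.inter_insert_of_notMem]
          exact fun h => hua (mem_nb.1 h)
        rw [e1, e1']
        rw [e2] at hu1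
        exact hu1)
    refine ⟨ψ', ?_, ?_⟩
    · have : W ∪ insert a R = insert a W ∪ R := by
        ext x; simp
      rw [this]; exact hψ'
    · intro x hx
      rw [hag x (Finset.mem_insert_of_mem hx), hψ1 x hx]

/-- colour an independent set with one common colour -/
theorem color_ind {k : ℕ} (G : SimpleGraph V) (W I : Finset V) (ψ : V → Fin k)
    (hp : PropOn G W ψ) (hI : ∀ x ∈ I, ∀ y ∈ I, ¬ G.Adj x y)
    (hc : ∑ x ∈ I, (nb G x ∩ W).card < k) :
    ∃ c : Fin k, PropOn G (W ∪ I) (fun x => if x ∈ I then c else ψ x) := by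
  have h2 : (I.biUnion (fun x => (nb G x ∩ W).image ψ)).card < (univ : Finset (Fin k)).card := by
    rw [Finset.card_univ, Fintype.card_fin]
    refine lt_of_le_of_lt Finset.card_biUnion_le ?_
    refine lt_of_le_of_lt (Finset.sum_le_sum fun x _ => Finset.card_image_le) hc
  obtain ⟨c, -, hcn⟩ := Finset.exists_mem_notMem_of_card_lt_card h2
  refine ⟨c, ?_⟩
  have hcn' : ∀ x ∈ I, ∀ y ∈ W, G.Adj x y → ψ y ≠ c := by
    intro x hx y hy hxy hyc
    apply hcn
    rw [Finset.mem_biUnion]
    exact ⟨x, hx, Finset.mem_image.2 ⟨y, Finset.mem_inter.2 ⟨mem_nb.2 hxy, hy⟩, hyc⟩⟩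
  intro x hx y hy hxy
  by_cases hxI : x ∈ I
  · by_cases hyI : y ∈ I
    · exact absurd hxy (hI x hxI y hyI)
    · have hyW : y ∈ W := (Finset.mem_union.1 hy).resolve_right hyI
      simp only [hxI, hyI, if_true, if_false]
      exact fun h => hcn' x hxI y hyW hxy h.symm
  · have hxW : x ∈ W := (Finset.mem_union.1 hx).resolve_right hxI
    by_cases hyI : y ∈ I
    · simp only [hxI, hyI, if_true, if_false]
      exact hcn' y hyI x hxW hxy.symm
    · have hyW : y ∈ W := (Finset.mem_union.1 hy).resolve_right hyI
      simp only [hxI, hyI, if_false]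
      exact hp x hxW y hyW hxy

namespace MinCex

variable {k : ℕ} {G : SimpleGraph V}

theorem sub_col (hG : MinCex k G) (D : Finset V) (hD : D.Nonempty) :
    ∃ ψ : V → Fin k, PropOn G (univ \ D) ψ := by
  apply hG.min (univ \ D) G
  · intro h
    obtain ⟨x, hx⟩ := hD
    have : x ∈ univ \ D := by rw [h]; exact Finset.mem_univ x
    exact (Finset.mem_sdiff.1 this).2 hx
  · intro v _
    exact (Finset.card_le_card Finset.inter_subset_left).trans (hG.deg v)
  · intro s _ hs
    exact hG.clq s hs

theorem mindeg (hG : MinCex k G) (v : V) : k ≤ (nb G v).card := by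
  by_contra hlt
  push Not at hlt
  obtain ⟨ψ, hψ⟩ := hG.sub_col {v} (Finset.singleton_nonempty v)
  obtain ⟨ψ', hψ', -⟩ := greedy G {v} (univ \ {v}) ψ
    (Finset.sdiff_disjoint) hψ (by
      intro u hu
      have : u = v := Finset.mem_singleton.1 hu
      subst this
      have e1 : (nb G u ∩ {u}) = ∅ := by
        rw [Finset.eq_empty_iff_forall_notMem]
        intro x hx
        have h1 := Finset.mem_inter.1 hx
        have h2 := Finset.mem_singleton.1 h1.2
        subst h2
        exact G.loopless.irrefl _ (mem_nb.1 h1.1)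
      rw [e1, Finset.card_empty, add_zero]
      exact lt_of_le_of_lt (Finset.card_image_le.trans (Finset.card_le_card Finset.inter_subset_left)) hlt)
  apply hG.nocol
  refine ⟨ψ', ?_⟩
  have : (univ \ {v}) ∪ {v} = (univ : Finset V) := by
    ext x; simp
  rw [this] at hψ'
  exact hψ'

/-- extension of a partial colouring with two savings on `P` -/
theorem ext_low (hG : MinCex k G) (D P : Finset V) (ψ : V → Fin k)
    (hψ : PropOn G ((univ \ D) ∪ P) ψ) (hs : (P.image ψ).card + 2 ≤ P.card)
    (hA : ∀ u ∈ D \ P, ¬ P ⊆ nb G u →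
      2 ≤ (nb G u ∩ (D \ P).filter (fun w => P ⊆ nb G w)).card) : False := by
  set A := (D \ P).filter (fun w => P ⊆ nb G w) with hAdef
  set H := (D \ P).filter (fun w => ¬ P ⊆ nb G w) with hHdef
  set W := (univ \ D) ∪ P with hWdef
  have hWH : Disjoint W H := by
    rw [Finset.disjoint_left]
    intro x hx hxH
    have h1 := (Finset.mem_filter.1 hxH).1
    have h2 := Finset.mem_sdiff.1 h1
    rcases Finset.mem_union.1 hx with h | h
    · exact (Finset.mem_sdiff.1 h).2 h2.1
    · exact h2.2 h
  have hWA : Disjoint W A := by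
    rw [Finset.disjoint_left]
    intro x hx hxH
    have h1 := (Finset.mem_filter.1 hxH).1
    have h2 := Finset.mem_sdiff.1 h1
    rcases Finset.mem_union.1 hx with h | h
    · exact (Finset.mem_sdiff.1 h).2 h2.1
    · exact h2.2 h
  have hHA : Disjoint H A := by
    rw [Finset.disjoint_left]
    intro x hx hx'
    exact (Finset.mem_filter.1 hx).2 (Finset.mem_filter.1 hx').2
  have hpos : 0 < k := by
    rcases Nat.eq_zero_or_pos k with h | h
    · subst h
      have := hG.clq ∅ (by simp)
      omega
    · exact h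
  obtain ⟨ψ1, hψ1, hag1⟩ := greedy G H W ψ hWH hψ (by
    intro u hu
    have h2 := hA u (Finset.mem_filter.1 hu).1 (Finset.mem_filter.1 hu).2
    have h3 : ((nb G u ∩ W).image ψ).card ≤ (nb G u ∩ W).card := Finset.card_image_le
    have h4 : (nb G u ∩ W).card + (nb G u ∩ H).card + (nb G u ∩ A).card ≤ (nb G u).card := by
      rw [← Finset.card_union_of_disjoint (Disjoint.mono Finset.inter_subset_right Finset.inter_subset_right hWH),
        ← Finset.card_union_of_disjoint]
      · apply Finset.card_le_card
        apply Finset.union_subset (Finset.union_subset Finset.inter_subset_left Finset.inter_subset_left) Finset.inter_subset_left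
      · rw [Finset.disjoint_union_left]
        exact ⟨Disjoint.mono Finset.inter_subset_right Finset.inter_subset_right hWA,
          Disjoint.mono Finset.inter_subset_right Finset.inter_subset_right hHA⟩
    have h5 := hG.deg u
    omega)
  have hWHA : Disjoint (W ∪ H) A := by
    rw [Finset.disjoint_union_left]; exact ⟨hWA, hHA⟩
  have hPW : P ⊆ W ∪ H := (Finset.subset_union_right).trans Finset.subset_union_left
  have himg : P.image ψ1 = P.image ψ := by
    apply Finset.image_congr
    intro x hx
    exact hag1 x (Finset.mem_union_right _ (Finset.mem_coe.1 hx))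
  obtain ⟨ψ2, hψ2, -⟩ := greedy G A (W ∪ H) ψ1 hWHA hψ1 (by
    intro u hu
    have hPu : P ⊆ nb G u := (Finset.mem_filter.1 hu).2
    have h3 : ((nb G u ∩ (W ∪ H)).image ψ1).card ≤ (P.image ψ).card + ((nb G u ∩ (W ∪ H)) \ P).card := by
      rw [← himg]
      calc ((nb G u ∩ (W ∪ H)).image ψ1).card ≤ (P.image ψ1 ∪ ((nb G u ∩ (W ∪ H)) \ P).image ψ1).card := by
            apply Finset.card_le_card
            rw [← Finset.image_union]
            apply Finset.image_subset_image
            intro x hx
            by_cases hxP : x ∈ P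
            · exact Finset.mem_union_left _ hxP
            · exact Finset.mem_union_right _ (Finset.mem_sdiff.2 ⟨hx, hxP⟩)
        _ ≤ (P.image ψ1).card + (((nb G u ∩ (W ∪ H)) \ P).image ψ1).card := Finset.card_union_le _ _
        _ ≤ _ := Nat.add_le_add_left Finset.card_image_le _
    have h6 : ((nb G u ∩ (W ∪ H)) \ P).card + P.card = (nb G u ∩ (W ∪ H)).card :=
      Finset.card_sdiff_add_card_eq_card (Finset.subset_inter hPu hPW)
    have h4 : (nb G u ∩ (W ∪ H)).card + (nb G u ∩ A).card ≤ (nb G u).card := by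
      rw [← Finset.card_union_of_disjoint (Disjoint.mono Finset.inter_subset_right Finset.inter_subset_right hWHA)]
      exact Finset.card_le_card (Finset.union_subset Finset.inter_subset_left Finset.inter_subset_left)
    have h5 := hG.deg u
    omega)
  apply hG.nocol
  refine ⟨ψ2, ?_⟩
  have : W ∪ H ∪ A = (univ : Finset V) := by
    ext x
    simp only [Finset.mem_union, Finset.mem_univ, iff_true, hWdef, hHdef, hAdef, Finset.mem_filter,
      Finset.mem_sdiff, true_and]
    tauto
  rw [this] at hψ2
  exact hψ2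

/-- no independent triple with few outside neighbours inside a dense spot -/
theorem no_triple (hG : MinCex k G) (D : Finset V) (x y z : V) (hx : x ∈ D) (hy : y ∈ D)
    (hz : z ∈ D) (hxy : x ≠ y) (hxz : x ≠ z) (hyz : y ≠ z) (nxy : ¬ G.Adj x y)
    (nxz : ¬ G.Adj x z) (nyz : ¬ G.Adj y z)
    (hc : (nb G x \ D).card + (nb G y \ D).card + (nb G z \ D).card < k)
    (hA : ∀ u ∈ D \ {x, y, z}, ¬ ({x, y, z} : Finset V) ⊆ nb G u →
      2 ≤ (nb G u ∩ (D \ {x, y, z}).filter (fun w => ({x, y, z} : Finset V) ⊆ nb G w)).card) :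
    False := by
  obtain ⟨ψ, hψ⟩ := hG.sub_col D ⟨x, hx⟩
  have hcap : ∀ v, nb G v ∩ (univ \ D) = nb G v \ D := by
    intro v; ext w; simp
  have hind : ∀ a ∈ ({x, y, z} : Finset V), ∀ b ∈ ({x, y, z} : Finset V), ¬ G.Adj a b := by
    intro a ha b hb
    simp only [Finset.mem_insert, Finset.mem_singleton] at ha hb
    rcases ha with rfl | rfl | rfl <;> rcases hb with rfl | rfl | rfl <;>
      first | exact G.loopless.irrefl _ | assumption | (intro h; exact absurd h.symm (by assumption))
  obtain ⟨c, hψ1⟩ := color_ind G (univ \ D) {x, y, z} ψ hψ hind (by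
    rw [Finset.sum_insert (by simp [hxy, hxz]), Finset.sum_insert (by simp [hyz]),
      Finset.sum_singleton, hcap, hcap, hcap]
    omega)
  refine hG.ext_low D {x, y, z} _ hψ1 ?_ hA
  have h1 : (({x, y, z} : Finset V).image (fun v => if v ∈ ({x, y, z} : Finset V) then c else ψ v)).card ≤ 1 := by
    rw [Finset.card_le_one]
    intro a ha b hb
    obtain ⟨a', ha', rfl⟩ := Finset.mem_image.1 ha
    obtain ⟨b', hb', rfl⟩ := Finset.mem_image.1 hb
    rw [if_pos ha', if_pos hb']
  have h2 : ({x, y, z} : Finset V).card = 3 := by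
    rw [Finset.card_insert_of_notMem (by simp [hxy, hxz]), Finset.card_insert_of_notMem (by simp [hyz]),
      Finset.card_singleton]
  omega

/-- no two disjoint nonadjacent pairs with few outside neighbours inside a dense spot -/
theorem no_pairs (hG : MinCex k G) (D : Finset V) (x y z w : V) (hx : x ∈ D) (hy : y ∈ D)
    (hz : z ∈ D) (hw : w ∈ D) (hxy : x ≠ y) (hxz : x ≠ z) (hxw : x ≠ w) (hyz : y ≠ z)
    (hyw : y ≠ w) (hzw : z ≠ w) (nxy : ¬ G.Adj x y) (nzw : ¬ G.Adj z w)
    (hc : (nb G x \ D).card + (nb G y \ D).card < k)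
    (hc' : (nb G z \ D).card + (nb G w \ D).card + 4 < k)
    (hA : ∀ u ∈ D \ {x, y, z, w}, ¬ ({x, y, z, w} : Finset V) ⊆ nb G u →
      2 ≤ (nb G u ∩ (D \ {x, y, z, w}).filter
        (fun v => ({x, y, z, w} : Finset V) ⊆ nb G v)).card) :
    False := by
  obtain ⟨ψ, hψ⟩ := hG.sub_col D ⟨x, hx⟩
  have hcap : ∀ v, nb G v ∩ (univ \ D) = nb G v \ D := by
    intro v; ext w; simp
  have hind : ∀ a b : V, ¬ G.Adj a b → ∀ a' ∈ ({a, b} : Finset V), ∀ b' ∈ ({a, b} : Finset V),
      ¬ G.Adj a' b' := by
    intro a b hab a' ha b' hb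
    simp only [Finset.mem_insert, Finset.mem_singleton] at ha hb
    rcases ha with rfl | rfl <;> rcases hb with rfl | rfl <;>
      first | exact G.loopless.irrefl _ | assumption | (intro h; exact absurd h.symm (by assumption))
  obtain ⟨c, hψ1⟩ := color_ind G (univ \ D) {x, y} ψ hψ (hind x y nxy) (by
    rw [Finset.sum_pair hxy, hcap, hcap]
    omega)
  have hcap2 : ∀ v, (nb G v ∩ ((univ \ D) ∪ {x, y})).card ≤ (nb G v \ D).card + 2 := by
    intro v
    rw [Finset.inter_union_distrib_left]
    refine (Finset.card_union_le _ _).trans ?_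
    rw [hcap]
    have : (nb G v ∩ {x, y}).card ≤ 2 :=
      (Finset.card_le_card Finset.inter_subset_right).trans Finset.card_le_two
    omega
  obtain ⟨c', hψ2⟩ := color_ind G ((univ \ D) ∪ {x, y}) {z, w} _ hψ1 (hind z w nzw) (by
    rw [Finset.sum_pair hzw]
    have h1 := hcap2 z
    have h2 := hcap2 w
    omega)
  have hset : (univ \ D) ∪ {x, y} ∪ {z, w} = (univ \ D) ∪ ({x, y, z, w} : Finset V) := by
    ext v; simp only [Finset.mem_union, Finset.mem_insert, Finset.mem_singleton]; tauto
  rw [hset] at hψ2
  refine hG.ext_low D {x, y, z, w} _ hψ2 ?_ hA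
  have h1 : (({x, y, z, w} : Finset V).image (fun v => if v ∈ ({z, w} : Finset V) then c' else
      (if v ∈ ({x, y} : Finset V) then c else ψ v))).card ≤ 2 := by
    refine (Finset.card_le_card (t := {c', c}) ?_).trans Finset.card_le_two
    intro b hb
    obtain ⟨a, ha, rfl⟩ := Finset.mem_image.1 hb
    simp only [Finset.mem_insert, Finset.mem_singleton] at ha ⊢
    rcases ha with rfl | rfl | rfl | rfl <;> simp [hxz, hxw, hyz, hyw]
  have h2 : ({x, y, z, w} : Finset V).card = 4 := by
    rw [Finset.card_insert_of_notMem (by simp [hxy, hxz, hxw]),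
      Finset.card_insert_of_notMem (by simp [hyz, hyw]), Finset.card_insert_of_notMem (by simp [hzw]),
      Finset.card_singleton]
  omega

end MinCex

end Pool.Agent.TH451.BK
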