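import Pool.Agent.TH451.BK.Rand

set_option autoImplicit false
set_option linter.unusedSectionVars false

namespace Pool.Agent.TH451.BK

open Finset
open scoped Classical

variable {V : Type} [Fintype V]

/-- numerical conditions -/
structure Par (k t m B L : ℕ) : Prop where
  hk : 100 ≤ k
  ht : 2 ≤ t
  hm : 1 ≤ m
  hB : 1 ≤ B
  hbig : 100 * m * (t + 7) ≤ k
  hL : 2 * L + 2 * t ≤ k
  hJ : 2048 * (B * (t + 1) + 1) < m
  h1 : 3 * Real.exp (-(t : ℝ) / 50000) * (4 * ((k : ℝ) + 2) ^ 6) ≤ 1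
  h2 : 2 * (1 / 16 : ℝ) ^ L * (4 * ((k : ℝ) + 2) ^ 6) ≤ 1
  h3 : (k : ℝ) * ((3 * m : ℕ) : ℝ) ^ (B + 1) * (8 * ((k : ℝ) + 2) ^ 6) ≤
    ((16 * (k + 1) : ℕ) : ℝ) ^ (B + 1)
  h4 : Real.exp (-((m : ℝ) ^ 2) / (2 ^ 27 * (B : ℝ) ^ 2 * (k : ℝ))) * (8 * ((k : ℝ) + 2) ^ 6) ≤ 1

/-- what the sample has to satisfy at the vertex `v` -/
def Good (k m B : ℕ) (G : SimpleGraph V) (F : Finset (Finset V)) (v : V)
    (ω : V → Fin k → Fin (16 * (k + 1))) : Prop :=
  (v ∉ F.biUnion id →
    (1 < (univ.filter (fun c : Fin k => ∃ x ∈ nb G v, ∃ y ∈ nb G v, x ≠ y ∧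
        isCol G ω x c ∧ isCol G ω y c)).card) ∨
    (1 < ((nb G v ∩ F.biUnion id).filter (fun x => ∀ c, ¬ act ω x c)).card)) ∧
  (∀ C ∈ F, v ∈ C → ∃ u y y' : Fin m → V, Spread G C u y y' ∧
    (∀ c : Fin k, ((univ.image u ∪ univ.image y ∪ univ.image y').filter
        (fun z => act ω z c)).card ≤ B) ∧
    m ≤ 2048 * (univ.filter (fun j : Fin m => (∀ c, ¬ act ω (u j) c) ∧
        (∃ c, ret G ω (y j) c) ∧ (∃ c, ret G ω (y' j) c))).card)

theorem le_q {k : ℕ} {a Ω : ℝ} (hΩ : 0 ≤ Ω) (h : a * (4 * ((k : ℝ) + 2) ^ 6) ≤ 1) :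
    a * Ω ≤ 1 / (4 * ((k : ℝ) + 2) ^ 6) * Ω := by
  apply mul_le_mul_of_nonneg_right _ hΩ
  rw [le_div_iff₀ (by positivity)]
  exact h

theorem event {k t m B L : ℕ} (hP : Par k t m B L) (G : SimpleGraph V)
    (hdeg : ∀ v, (nb G v).card ≤ k + 1) (F : Finset (Finset V)) (hF : Fam k t G F)
    (hsp : ∀ v, v ∉ F.biUnion id → t * (k + 1) ≤ 8 * prs G v ∨
      ∃ C ∈ F, k ≤ (nb G v ∩ C).card + 2 * t)
    (hspread : ∀ C ∈ F, ∃ u y y' : Fin m → V, Spread G C u y y') (v : V) :
    ∃ A : Finset (V → Fin k → Fin (16 * (k + 1))),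
      (∀ s s' : V → Fin k → Fin (16 * (k + 1)), (∀ i ∈ ball G 3 v, s i = s' i) →
        (s ∈ A ↔ s' ∈ A)) ∧
      (A.card : ℝ) ≤ 1 / (4 * ((k : ℝ) + 2) ^ 6) *
        (Fintype.card (V → Fin k → Fin (16 * (k + 1))) : ℝ) ∧
      ∀ ω, ω ∉ A → Good k m B G F v ω := by
  have hΩ0 : (0 : ℝ) ≤ (Fintype.card (V → Fin k → Fin (16 * (k + 1))) : ℝ) := Nat.cast_nonneg _
  -- congruence of isCol inside the ball
  have hadj_ball : ∀ (n : ℕ) (x y : V), x ∈ ball G n v → G.Adj x y → y ∈ ball G (n + 1) v :=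
    fun n x y hx hxy => ball_succ_mem.2 (Or.inr ⟨x, hx, hxy⟩)
  by_cases hvU : v ∈ F.biUnion id
  · -- clique vertex
    obtain ⟨C, hC, hvC⟩ := Finset.mem_biUnion.1 hvU
    change v ∈ C at hvC
    obtain ⟨u, y, y', hS⟩ := hspread C hC
    set Z := univ.image u ∪ univ.image y ∪ univ.image y' with hZ
    have hZc : Z.card ≤ 3 * m := by
      have h1 := Finset.card_image_le (s := (univ : Finset (Fin m))) (f := u)
      have h2 := Finset.card_image_le (s := (univ : Finset (Fin m))) (f := y)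
      have h3 := Finset.card_image_le (s := (univ : Finset (Fin m))) (f := y')
      have h4 := Finset.card_union_le (univ.image u ∪ univ.image y) (univ.image y')
      have h5 := Finset.card_union_le (univ.image u) (univ.image y)
      rw [← hZ] at h4
      rw [Finset.card_univ, Fintype.card_fin] at h1 h2 h3
      omega
    set A1 := univ.filter (fun ω : V → Fin k → Fin (16 * (k + 1)) =>
      ∃ c : Fin k, B + 1 ≤ (Z.filter (fun z => act ω z c)).card) with hA1
    set A2 := univ.filter (fun ω : V → Fin k → Fin (16 * (k + 1)) =>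
      (∀ c : Fin k, (Z.filter (fun z => act ω z c)).card ≤ B) ∧
      2048 * (univ.filter (fun j : Fin m => (∀ c, ¬ act ω (u j) c) ∧
        (∃ c, ret G ω (y j) c) ∧ (∃ c, ret G ω (y' j) c))).card < m) with hA2
    -- locations
    have hCball : ∀ x ∈ C, x ∈ ball G 1 v := by
      intro x hx
      by_cases hxv : x = v
      · subst hxv; exact ball_self 1 x
      · exact ball_succ_mem.2 (Or.inr ⟨v, by simp [ball], hF.clq C hC hvC hx (Ne.symm hxv)⟩)
    have huB : ∀ j, u j ∈ ball G 1 v := fun j => hCball _ (hS.uC j)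
    have hyB : ∀ j, y j ∈ ball G 2 v := fun j => hadj_ball 1 _ _ (huB j) (hS.adj j)
    have hyB' : ∀ j, y' j ∈ ball G 2 v := fun j => hadj_ball 1 _ _ (huB j) (hS.adj' j)
    have hZB : ∀ z ∈ Z, z ∈ ball G 3 v := by
      intro z hz
      rw [hZ] at hz
      simp only [Finset.mem_union, Finset.mem_image, Finset.mem_univ, true_and] at hz
      rcases hz with (⟨j, rfl⟩ | ⟨j, rfl⟩) | ⟨j, rfl⟩
      · exact ball_mono (by norm_num) (huB j)
      · exact ball_mono (by norm_num) (hyB j)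
      · exact ball_mono (by norm_num) (hyB' j)
    have hdepZ : ∀ s s' : V → Fin k → Fin (16 * (k + 1)), (∀ i ∈ ball G 3 v, s i = s' i) →
        ∀ c, Z.filter (fun z => act s z c) = Z.filter (fun z => act s' z c) := by
      intro s s' hss c
      apply Finset.filter_congr
      intro z hz
      unfold act
      rw [hss z (hZB z hz)]
    have hdepJ : ∀ s s' : V → Fin k → Fin (16 * (k + 1)), (∀ i ∈ ball G 3 v, s i = s' i) →
        (univ.filter (fun j : Fin m => (∀ c, ¬ act s (u j) c) ∧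
        (∃ c, ret G s (y j) c) ∧ (∃ c, ret G s (y' j) c))) =
        (univ.filter (fun j : Fin m => (∀ c, ¬ act s' (u j) c) ∧
        (∃ c, ret G s' (y j) c) ∧ (∃ c, ret G s' (y' j) c))) := by
      intro s s' hss
      apply Finset.filter_congr
      intro j _
      have e1 : s (u j) = s' (u j) := hss _ (ball_mono (by norm_num) (huB j))
      have e2 : ∀ c, ret G s (y j) c ↔ ret G s' (y j) c := fun c =>
        ret_congr (hss _ (ball_mono (by norm_num) (hyB j)))
          (fun z hz => hss _ (hadj_ball 2 _ _ (hyB j) hz)) c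
      have e3 : ∀ c, ret G s (y' j) c ↔ ret G s' (y' j) c := fun c =>
        ret_congr (hss _ (ball_mono (by norm_num) (hyB' j)))
          (fun z hz => hss _ (hadj_ball 2 _ _ (hyB' j) hz)) c
      simp only [e2, e3]
      unfold act
      rw [e1]
    refine ⟨A1 ∪ A2, ?_, ?_, ?_⟩
    · intro s s' hss
      simp only [hA1, hA2, Finset.mem_union, Finset.mem_filter, Finset.mem_univ, true_and]
      simp only [hdepZ s s' hss, hdepJ s s' hss]
    · have hN : 0 < 16 * (k + 1) := by omega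
      have b1 := TH620.BK.E2_overflow k (16 * (k + 1)) hN Z B
      have hk8 : (4096 : ℝ) ≤ 8 * ((k : ℝ) + 2) ^ 6 := by
        have hk' : (100 : ℝ) ≤ k := by exact_mod_cast hP.hk
        have : (4 : ℝ) ^ 6 ≤ ((k : ℝ) + 2) ^ 6 := pow_le_pow_left₀ (by norm_num) (by linarith) 6
        norm_num at this
        linarith
      have hkm0 : (0 : ℝ) ≤ (k : ℝ) * ((3 * m : ℕ) : ℝ) ^ (B + 1) := by positivity
      have b2 := TH620.BK.E2_bound G k m B hP.hk hP.hm hP.hB hdeg C u y y' hS (by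
        refine le_trans ?_ hP.h3
        rw [mul_comm]
        exact mul_le_mul_of_nonneg_left hk8 hkm0)
      have c1 : (A1.card : ℝ) ≤ 1 / (8 * ((k : ℝ) + 2) ^ 6) *
          (Fintype.card (V → Fin k → Fin (16 * (k + 1))) : ℝ) := by
        have hNpos : (0 : ℝ) < ((16 * (k + 1) : ℕ) : ℝ) ^ (B + 1) := by
          apply pow_pos
          exact_mod_cast hN
        have h6 : (Z.card : ℝ) ^ (B + 1) ≤ ((3 * m : ℕ) : ℝ) ^ (B + 1) :=
          pow_le_pow_left₀ (Nat.cast_nonneg _) (by exact_mod_cast hZc) _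
        have h7 : (A1.card : ℝ) * ((16 * (k + 1) : ℕ) : ℝ) ^ (B + 1) ≤
            (k : ℝ) * ((3 * m : ℕ) : ℝ) ^ (B + 1) *
              (Fintype.card (V → Fin k → Fin (16 * (k + 1))) : ℝ) := by
          refine b1.trans ?_
          apply mul_le_mul_of_nonneg_right _ hΩ0
          exact mul_le_mul_of_nonneg_left h6 (Nat.cast_nonneg _)
        rw [one_div, inv_mul_eq_div, le_div_iff₀ (by positivity)]
        refine le_of_mul_le_mul_right ?_ hNpos
        calc (A1.card : ℝ) * (8 * ((k : ℝ) + 2) ^ 6) * ((16 * (k + 1) : ℕ) : ℝ) ^ (B + 1)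
            = ((A1.card : ℝ) * ((16 * (k + 1) : ℕ) : ℝ) ^ (B + 1)) * (8 * ((k : ℝ) + 2) ^ 6) := by
              ring
          _ ≤ ((k : ℝ) * ((3 * m : ℕ) : ℝ) ^ (B + 1) *
              (Fintype.card (V → Fin k → Fin (16 * (k + 1))) : ℝ)) * (8 * ((k : ℝ) + 2) ^ 6) :=
              mul_le_mul_of_nonneg_right h7 (by positivity)
          _ = (Fintype.card (V → Fin k → Fin (16 * (k + 1))) : ℝ) *
              ((k : ℝ) * ((3 * m : ℕ) : ℝ) ^ (B + 1) * (8 * ((k : ℝ) + 2) ^ 6)) := by ring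
          _ ≤ (Fintype.card (V → Fin k → Fin (16 * (k + 1))) : ℝ) *
              ((16 * (k + 1) : ℕ) : ℝ) ^ (B + 1) := mul_le_mul_of_nonneg_left hP.h3 hΩ0
      have c2 : (A2.card : ℝ) ≤ 1 / (8 * ((k : ℝ) + 2) ^ 6) *
          (Fintype.card (V → Fin k → Fin (16 * (k + 1))) : ℝ) := by
        refine b2.trans ?_
        apply mul_le_mul_of_nonneg_right _ hΩ0
        rw [le_div_iff₀ (by positivity)]
        exact hP.h4
      have c3 : ((A1 ∪ A2).card : ℝ) ≤ (A1.card : ℝ) + (A2.card : ℝ) := by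
        exact_mod_cast Finset.card_union_le A1 A2
      refine c3.trans ((add_le_add c1 c2).trans (le_of_eq ?_))
      have hne : ((k : ℝ) + 2) ^ 6 ≠ 0 := by positivity
      field_simp
      ring
    · intro ω hω
      refine ⟨fun h => absurd hvU h, ?_⟩
      intro C1 hC1 hvC1
      have hCC : C1 = C := by
        by_contra hne
        exact (Finset.disjoint_left.1 (hF.disj C1 hC1 C hC hne) hvC1) hvC
      subst hCC
      rw [Finset.mem_union, not_or] at hω
      have h1 : ∀ c : Fin k, (Z.filter (fun z => act ω z c)).card ≤ B := by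
        intro c
        by_contra hlt
        push Not at hlt
        exact hω.1 (Finset.mem_filter.2 ⟨Finset.mem_univ _, c, hlt⟩)
      refine ⟨u, y, y', hS, h1, ?_⟩
      by_contra hlt
      push Not at hlt
      exact hω.2 (Finset.mem_filter.2 ⟨Finset.mem_univ _, h1, hlt⟩)
  · -- vertex outside the cliques
    have hnocl : ∀ C ∈ F, v ∈ C → False := fun C hC hvC =>
      hvU (Finset.mem_biUnion.2 ⟨C, hC, hvC⟩)
    rcases hsp v hvU with hs | ⟨C, hC, hCn⟩
    · -- sparse
      refine ⟨univ.filter (fun ω : V → Fin k → Fin (16 * (k + 1)) =>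
        (univ.filter (fun c : Fin k => ∃ x ∈ nb G v, ∃ y ∈ nb G v, x ≠ y ∧
          isCol G ω x c ∧ isCol G ω y c)).card ≤ 1), ?_, ?_, ?_⟩
      · intro s s' hss
        have e : (univ.filter (fun c : Fin k => ∃ x ∈ nb G v, ∃ y ∈ nb G v, x ≠ y ∧
          isCol G s x c ∧ isCol G s y c)) = (univ.filter (fun c : Fin k => ∃ x ∈ nb G v,
            ∃ y ∈ nb G v, x ≠ y ∧ isCol G s' x c ∧ isCol G s' y c)) := by
          apply Finset.filter_congr
          intro c _
          have key : ∀ x ∈ nb G v, (isCol G s x c ↔ isCol G s' x c) := by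
            intro x hx
            have hx1 : x ∈ ball G 1 v := hadj_ball 0 v x (by simp [ball]) (mem_nb.1 hx)
            exact isCol_congr (hss _ (ball_mono (by norm_num) hx1))
              (fun z hz => hss _ (ball_mono (by norm_num) (hadj_ball 1 _ _ hx1 hz))) c
          constructor
          · rintro ⟨x, hx, y, hy, hne, h1, h2⟩
            exact ⟨x, hx, y, hy, hne, (key x hx).1 h1, (key y hy).1 h2⟩
          · rintro ⟨x, hx, y, hy, hne, h1, h2⟩
            exact ⟨x, hx, y, hy, hne, (key x hx).2 h1, (key y hy).2 h2⟩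
        simp only [Finset.mem_filter, Finset.mem_univ, true_and, e]
      · exact (TH194.BK.E1_bound G k t hP.hk hdeg v hs).trans (le_q hΩ0 hP.h1)
      · intro ω hω
        refine ⟨fun _ => Or.inl ?_, fun C hC hvC => (hnocl C hC hvC).elim⟩
        by_contra hlt
        push Not at hlt
        exact hω (Finset.mem_filter.2 ⟨Finset.mem_univ _, hlt⟩)
    · -- many neighbours in one clique
      obtain ⟨T1, hT1, hT1c⟩ := Finset.exists_subset_card_eq (s := nb G v ∩ C) (n := L) (by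
        have := hP.hL; omega)
      obtain ⟨T2, hT2, hT2c⟩ := Finset.exists_subset_card_eq (s := (nb G v ∩ C) \ T1) (n := L) (by
        rw [Finset.card_sdiff_of_subset hT1]
        have := hP.hL; omega)
      have hT2' : T2 ⊆ nb G v ∩ C := hT2.trans Finset.sdiff_subset
      have hT12 : Disjoint T1 T2 := by
        rw [Finset.disjoint_left]
        intro x hx hx'
        exact (Finset.mem_sdiff.1 (hT2 hx')).2 hx
      have hb : ∀ x ∈ nb G v ∩ C, x ∈ ball G 3 v := by
        intro x hx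
        have hx1 : x ∈ ball G 1 v := hadj_ball 0 v x (by simp [ball]) (mem_nb.1 (Finset.mem_inter.1 hx).1)
        exact ball_mono (by norm_num) hx1
      have hdepT : ∀ T : Finset V, T ⊆ nb G v ∩ C →
          ∀ s s' : V → Fin k → Fin (16 * (k + 1)), (∀ i ∈ ball G 3 v, s i = s' i) →
          ((∀ x ∈ T, ∃ c, act s x c) ↔ (∀ x ∈ T, ∃ c, act s' x c)) := by
        intro T hT s s' hss
        refine forall_congr' fun x => imp_congr_right fun hx => ?_
        unfold act
        rw [hss x (hb x (hT hx))]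
      refine ⟨univ.filter (fun ω : V → Fin k → Fin (16 * (k + 1)) => ∀ x ∈ T1, ∃ c, act ω x c) ∪
        univ.filter (fun ω : V → Fin k → Fin (16 * (k + 1)) => ∀ x ∈ T2, ∃ c, act ω x c), ?_, ?_, ?_⟩
      · intro s s' hss
        simp only [Finset.mem_union, Finset.mem_filter, Finset.mem_univ, true_and]
        rw [hdepT T1 hT1 s s' hss, hdepT T2 hT2' s s' hss]
      · have b1 := E3_bound k T1
        have b2 := E3_bound k T2
        rw [hT1c] at b1
        rw [hT2c] at b2
        have c3 : ((univ.filter (fun ω : V → Fin k → Fin (16 * (k + 1)) => ∀ x ∈ T1, ∃ c, act ω x c) ∪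
          univ.filter (fun ω : V → Fin k → Fin (16 * (k + 1)) => ∀ x ∈ T2, ∃ c, act ω x c)).card : ℝ) ≤
          ((univ.filter (fun ω : V → Fin k → Fin (16 * (k + 1)) => ∀ x ∈ T1, ∃ c, act ω x c)).card : ℝ) +
          ((univ.filter (fun ω : V → Fin k → Fin (16 * (k + 1)) => ∀ x ∈ T2, ∃ c, act ω x c)).card : ℝ) := by
          exact_mod_cast Finset.card_union_le _ _
        refine c3.trans ((add_le_add b1 b2).trans ?_)
        rw [← two_mul, ← mul_assoc]
        exact le_q hΩ0 hP.h2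
      · intro ω hω
        refine ⟨fun _ => Or.inr ?_, fun C hC hvC => (hnocl C hC hvC).elim⟩
        rw [Finset.mem_union, not_or] at hω
        have h1 : ∃ x ∈ T1, ∀ c, ¬ act ω x c := by
          by_contra hcon
          push Not at hcon
          exact hω.1 (Finset.mem_filter.2 ⟨Finset.mem_univ _, hcon⟩)
        have h2 : ∃ x ∈ T2, ∀ c, ¬ act ω x c := by
          by_contra hcon
          push Not at hcon
          exact hω.2 (Finset.mem_filter.2 ⟨Finset.mem_univ _, hcon⟩)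
        obtain ⟨x1, hx1, ha1⟩ := h1
        obtain ⟨x2, hx2, ha2⟩ := h2
        rw [Finset.one_lt_card]
        have hin : ∀ x ∈ nb G v ∩ C, x ∈ nb G v ∩ F.biUnion id := by
          intro x hx
          obtain ⟨hx1, hx2⟩ := Finset.mem_inter.1 hx
          exact Finset.mem_inter.2 ⟨hx1, Finset.mem_biUnion.2 ⟨C, hC, hx2⟩⟩
        refine ⟨x1, Finset.mem_filter.2 ⟨hin x1 (hT1 hx1), ha1⟩, x2,
          Finset.mem_filter.2 ⟨hin x2 (hT2' hx2), ha2⟩, ?_⟩
        rintro rfl
        exact (Finset.disjoint_left.1 hT12 hx1) hx2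

/-- existence of a good sample, by the local lemma -/
theorem exists_good {k t m B L : ℕ} (hP : Par k t m B L) (G : SimpleGraph V)
    (hdeg : ∀ v, (nb G v).card ≤ k + 1) (F : Finset (Finset V)) (hF : Fam k t G F)
    (hsp : ∀ v, v ∉ F.biUnion id → t * (k + 1) ≤ 8 * prs G v ∨
      ∃ C ∈ F, k ≤ (nb G v ∩ C).card + 2 * t)
    (hspread : ∀ C ∈ F, ∃ u y y' : Fin m → V, Spread G C u y y') :
    ∃ ω : V → Fin k → Fin (16 * (k + 1)), ∀ v, Good k m B G F v ω := by
  choose A hdep hcard hgood using event hP G hdeg F hF hsp hspread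
  have hN : 0 < 16 * (k + 1) := by omega
  have : Nonempty (Fin k → Fin (16 * (k + 1))) := ⟨fun _ => ⟨0, hN⟩⟩
  have hq0 : (0 : ℝ) ≤ 1 / (4 * ((k : ℝ) + 2) ^ 6) := by positivity
  have hk' : (100 : ℝ) ≤ k := by exact_mod_cast hP.hk
  have hq1 : 4 * (1 / (4 * ((k : ℝ) + 2) ^ 6)) * (((k + 2) ^ 6 : ℕ) : ℝ) ≤ 1 := by
    push_cast
    have hne : ((k : ℝ) + 2) ^ 6 ≠ 0 := by positivity
    apply le_of_eq
    field_simp
  have hpow : (1 : ℝ) ≤ ((k : ℝ) + 2) ^ 6 := one_le_pow₀ (by linarith)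
  have hq2 : 4 * (1 / (4 * ((k : ℝ) + 2) ^ 6)) ≤ 1 := by
    rw [mul_one_div, div_le_one (by positivity)]
    linarith
  have hl := QCube.lll A (fun v => ball G 3 v) hdep (1 / (4 * ((k : ℝ) + 2) ^ 6))
    ((k + 2) ^ 6) hq0 hcard (by
      intro v
      refine le_trans (Finset.card_le_card (t := ball G 6 v) ?_) (ball_card hdeg 6 v)
      intro w hw
      have h1 := (Finset.mem_filter.1 hw).2.2
      rw [Finset.not_disjoint_iff] at h1
      obtain ⟨x, hx1, hx2⟩ := h1
      exact ball_trans hx1 3 w (ball_symm 3 hx2)) hq1 hq2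
  have hpos : (0 : ℝ) < (1 - 2 * (1 / (4 * ((k : ℝ) + 2) ^ 6))) ^ Fintype.card V *
      (Fintype.card (V → Fin k → Fin (16 * (k + 1))) : ℝ) := by
    apply mul_pos
    · apply pow_pos
      linarith
    · exact_mod_cast Fintype.card_pos
  have hpos2 := lt_of_lt_of_le hpos hl
  have hne : (univ.filter (fun s : V → Fin k → Fin (16 * (k + 1)) => ∀ w, s ∉ A w)).Nonempty := by
    rw [← Finset.card_pos]
    exact_mod_cast hpos2
  obtain ⟨ω, hω⟩ := hne
  exact ⟨ω, fun v => hgood v ω ((Finset.mem_filter.1 hω).2 v)⟩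

end Pool.Agent.TH451.BK
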