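import Pool.Agent.TH451.BK.Greedy
import Pool.Agent.TH194.BK.E1b
import Pool.Agent.TH620.BK_E2
import Pool.Agent.QCube.Lll

set_option autoImplicit false
set_option linter.unusedSectionVars false

namespace Pool.Agent.TH451.BK

open Finset
open scoped Classical

variable {V : Type} [Fintype V]

/-- balls in a graph -/
noncomputable def ball (G : SimpleGraph V) : ℕ → V → Finset V
  | 0, v => {v}
  | n + 1, v => ball G n v ∪ (ball G n v).biUnion (nb G)

theorem ball_succ_mem {G : SimpleGraph V} {n : ℕ} {v w : V} :
    w ∈ ball G (n + 1) v ↔ w ∈ ball G n v ∨ ∃ z ∈ ball G n v, G.Adj z w := by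
  simp [ball, mem_nb]

theorem ball_self {G : SimpleGraph V} (n : ℕ) (v : V) : v ∈ ball G n v := by
  induction n with
  | zero => simp [ball]
  | succ n ih => exact ball_succ_mem.2 (Or.inl ih)

theorem ball_card {G : SimpleGraph V} {d : ℕ} (hd : ∀ v, (nb G v).card ≤ d) (n : ℕ) (v : V) :
    (ball G n v).card ≤ (d + 1) ^ n := by
  induction n with
  | zero => simp [ball]
  | succ n ih =>
    calc (ball G (n + 1) v).card ≤ (ball G n v).card + ((ball G n v).biUnion (nb G)).card :=
          Finset.card_union_le _ _
      _ ≤ (ball G n v).card + (ball G n v).card * d := by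
          refine Nat.add_le_add_left (Finset.card_biUnion_le.trans ?_) _
          refine (Finset.sum_le_card_nsmul _ _ d (fun x _ => hd x)).trans (le_of_eq ?_)
          rw [smul_eq_mul]
      _ = (ball G n v).card * (d + 1) := by ring
      _ ≤ (d + 1) ^ n * (d + 1) := Nat.mul_le_mul_right _ ih
      _ = (d + 1) ^ (n + 1) := by ring

theorem ball_trans {G : SimpleGraph V} {n : ℕ} {v w : V} (h : w ∈ ball G n v) (m : ℕ) :
    ∀ x, x ∈ ball G m w → x ∈ ball G (n + m) v := by
  induction m with
  | zero =>
    intro x hx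
    simp only [ball, Finset.mem_singleton] at hx
    subst hx
    exact h
  | succ m ih =>
    intro x hx
    rw [← Nat.add_assoc]
    rcases ball_succ_mem.1 hx with h1 | ⟨z, hz, hzx⟩
    · exact ball_succ_mem.2 (Or.inl (ih x h1))
    · exact ball_succ_mem.2 (Or.inr ⟨z, ih z hz, hzx⟩)

theorem ball_symm {G : SimpleGraph V} (n : ℕ) : ∀ {v w : V}, w ∈ ball G n v → v ∈ ball G n w := by
  induction n with
  | zero =>
    intro v w h
    simp only [ball, Finset.mem_singleton] at h ⊢
    exact h.symm
  | succ n ih =>
    intro v w h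
    rcases ball_succ_mem.1 h with h1 | ⟨z, hz, hzx⟩
    · exact ball_succ_mem.2 (Or.inl (ih h1))
    · have h2 := ih hz
      have h3 : z ∈ ball G 1 w := by
        refine ball_succ_mem.2 (Or.inr ⟨w, ?_, hzx.symm⟩)
        simp [ball]
      have h4 := ball_trans h3 n v h2
      rwa [Nat.add_comm] at h4

theorem ball_mono {G : SimpleGraph V} {n m : ℕ} (h : n ≤ m) {v w : V} (hw : w ∈ ball G n v) :
    w ∈ ball G m v := by
  induction m, h using Nat.le_induction with
  | base => exact hw
  | succ m _ ih => exact ball_succ_mem.2 (Or.inl ih)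

section samples

variable {k N : ℕ}

theorem ret_congr {G : SimpleGraph V} {ω ω' : V → Fin k → Fin N} {x : V}
    (h : ω x = ω' x) (h' : ∀ y, G.Adj x y → ω y = ω' y) (c : Fin k) :
    ret G ω x c ↔ ret G ω' x c := by
  unfold ret act
  rw [h]
  refine and_congr_right fun _ => forall_congr' fun y => ?_
  refine imp_congr_right fun hy => ?_
  rw [h' y hy]

theorem isCol_congr {G : SimpleGraph V} {ω ω' : V → Fin k → Fin N} {x : V}
    (h : ω x = ω' x) (h' : ∀ y, G.Adj x y → ω y = ω' y) (c : Fin k) :
    isCol G ω x c ↔ isCol G ω' x c := by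
  unfold isCol
  rw [ret_congr h h' c]
  refine and_congr_right fun _ => forall_congr' fun y => ?_
  rw [ret_congr h h' y]

theorem isCol_unique {G : SimpleGraph V} {ω : V → Fin k → Fin N} {x : V} {c c' : Fin k}
    (h : isCol G ω x c) (h' : isCol G ω x c') : c = c' := by
  rcases lt_trichotomy c c' with hl | hl | hl
  · exact absurd h.1 (h'.2 c hl)
  · exact hl
  · exact absurd h'.1 (h.2 c' hl)

theorem exists_isCol {G : SimpleGraph V} {ω : V → Fin k → Fin N} {x : V}
    (h : ∃ c, ret G ω x c) : ∃ c, isCol G ω x c := by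
  obtain ⟨c, hc⟩ := h
  induction c using WellFoundedLT.induction with
  | ind c ih =>
    by_cases h2 : ∃ c' < c, ret G ω x c'
    · obtain ⟨c', hlt, hc'⟩ := h2
      exact ih c' hlt hc'
    · push Not at h2
      exact ⟨c, hc, h2⟩

/-- the partial colouring of a sample -/
noncomputable def colF (G : SimpleGraph V) (ω : V → Fin k → Fin N) (x : V) : Option (Fin k) :=
  if h : ∃ c, isCol G ω x c then some h.choose else none

theorem colF_some {G : SimpleGraph V} {ω : V → Fin k → Fin N} {x : V} {c : Fin k} :
    colF G ω x = some c ↔ isCol G ω x c := by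
  unfold colF
  constructor
  · intro h
    split_ifs at h with h1
    have h2 : h1.choose = c := Option.some_injective _ h
    rw [← h2]
    exact h1.choose_spec
  · intro h
    have h1 : ∃ c, isCol G ω x c := ⟨c, h⟩
    rw [dif_pos h1]
    rw [isCol_unique h1.choose_spec h]

theorem colF_none {G : SimpleGraph V} {ω : V → Fin k → Fin N} {x : V}
    (h : ∀ c, ¬ act ω x c) : colF G ω x = none := by
  unfold colF
  rw [dif_neg]
  rintro ⟨c, hc⟩
  exact h c hc.1.1

theorem colF_ne_none {G : SimpleGraph V} {ω : V → Fin k → Fin N} {x : V}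
    (h : ∃ c, ret G ω x c) : colF G ω x ≠ none := by
  obtain ⟨c, hc⟩ := exists_isCol h
  rw [colF_some.2 hc]
  simp

theorem colF_proper {G : SimpleGraph V} {ω : V → Fin k → Fin N} (x y : V) (hxy : G.Adj x y)
    (c : Fin k) (h : colF G ω x = some c) : colF G ω y ≠ some c := by
  intro h'
  exact (colF_some.1 h).1.2 y hxy (colF_some.1 h').1.1

end samples

theorem E3_bound (k : ℕ) (T : Finset V) :
    ((univ.filter (fun ω : V → Fin k → Fin (16 * (k + 1)) =>
      ∀ x ∈ T, ∃ c, act ω x c)).card : ℝ) ≤
      (1 / 16 : ℝ) ^ T.card * (Fintype.card (V → Fin k → Fin (16 * (k + 1))) : ℝ) := by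
  set N := 16 * (k + 1) with hN
  -- samples of one vertex
  set A : Finset (Fin k → Fin N) := univ.filter (fun f => ∃ c, (f c).val = 0) with hA
  have hfil : (univ.filter (fun ω : V → Fin k → Fin N => ∀ x ∈ T, ∃ c, act ω x c)) =
      Fintype.piFinset (fun x => if x ∈ T then A else univ) := by
    ext ω
    rw [Fintype.mem_piFinset, Finset.mem_filter]
    constructor
    · rintro ⟨-, h⟩ x
      by_cases hx : x ∈ T
      · rw [if_pos hx, hA, Finset.mem_filter]
        exact ⟨Finset.mem_univ _, h x hx⟩
      · rw [if_neg hx]; exact Finset.mem_univ _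
    · intro h
      refine ⟨Finset.mem_univ _, fun x hx => ?_⟩
      have := h x
      rw [if_pos hx, hA, Finset.mem_filter] at this
      exact this.2
  have hNpos : 0 < N := by omega
  have hAc : (A.card : ℝ) ≤ (1 / 16 : ℝ) * (Fintype.card (Fin k → Fin N) : ℝ) := by
    have h1 : A ⊆ (univ : Finset (Fin k)).biUnion
        (fun c => univ.filter (fun f : Fin k → Fin N => (f c).val = 0)) := by
      intro f hf
      obtain ⟨c, hc⟩ := (Finset.mem_filter.1 hf).2
      exact Finset.mem_biUnion.2 ⟨c, Finset.mem_univ _, Finset.mem_filter.2 ⟨Finset.mem_univ _, hc⟩⟩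
    have h2 : ∀ c : Fin k, (univ.filter (fun f : Fin k → Fin N => (f c).val = 0)).card * N =
        Fintype.card (Fin k → Fin N) := by
      intro c
      have e : (univ.filter (fun f : Fin k → Fin N => (f c).val = 0)) =
          Fintype.piFinset (fun c' => if c' = c then ({⟨0, hNpos⟩} : Finset (Fin N)) else univ) := by
        ext f
        rw [Fintype.mem_piFinset, Finset.mem_filter]
        constructor
        · rintro ⟨-, h⟩ c'
          by_cases hc : c' = c
          · subst hc
            rw [if_pos rfl, Finset.mem_singleton]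
            exact Fin.ext h
          · rw [if_neg hc]; exact Finset.mem_univ _
        · intro h
          refine ⟨Finset.mem_univ _, ?_⟩
          have := h c
          rw [if_pos rfl, Finset.mem_singleton] at this
          rw [this]
      rw [e, Fintype.card_piFinset, Fintype.card_fun, Fintype.card_fin, Fintype.card_fin]
      have h3 : ∀ c' : Fin k, (if c' = c then ({⟨0, hNpos⟩} : Finset (Fin N)) else univ).card =
          if c' = c then 1 else N := by
        intro c'
        split_ifs <;> simp
      rw [Finset.prod_congr rfl (fun c' _ => h3 c')]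
      rw [← Finset.mul_prod_erase univ _ (Finset.mem_univ c)]
      rw [Finset.prod_congr (g := fun _ => N) rfl (fun c' hc' => if_neg (Finset.ne_of_mem_erase hc'))]
      rw [Finset.prod_const, Finset.card_erase_of_mem (Finset.mem_univ c), Finset.card_univ,
        Fintype.card_fin]
      simp only [if_true]
      have hk : 0 < k := Fin.pos c
      obtain ⟨k', rfl⟩ : ∃ k', k = k' + 1 := ⟨k - 1, by omega⟩
      simp [pow_succ]
    have h3 : A.card * N ≤ k * Fintype.card (Fin k → Fin N) := by
      calc A.card * N ≤ (∑ c : Fin k, (univ.filter (fun f : Fin k → Fin N => (f c).val = 0)).card) * N :=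
            Nat.mul_le_mul_right _ ((Finset.card_le_card h1).trans Finset.card_biUnion_le)
        _ = ∑ c : Fin k, Fintype.card (Fin k → Fin N) := by
            rw [Finset.sum_mul]
            exact Finset.sum_congr rfl (fun c _ => h2 c)
        _ = k * Fintype.card (Fin k → Fin N) := by
            rw [Finset.sum_const, Finset.card_univ, Fintype.card_fin, smul_eq_mul]
    have h4 : (A.card : ℝ) * (16 * ((k : ℝ) + 1)) ≤ k * (Fintype.card (Fin k → Fin N) : ℝ) := by
      have this : (A.card : ℝ) * (N : ℝ) ≤ (k : ℝ) * (Fintype.card (Fin k → Fin N) : ℝ) := by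
        exact_mod_cast h3
      have hNr : (N : ℝ) = 16 * ((k : ℝ) + 1) := by
        rw [hN]; push_cast; ring
      rw [hNr] at this
      exact this
    have hk0 : (0 : ℝ) ≤ k := Nat.cast_nonneg _
    have hc0 : (0 : ℝ) ≤ (Fintype.card (Fin k → Fin N) : ℝ) := Nat.cast_nonneg _
    have h5 : (A.card : ℝ) * (16 * ((k : ℝ) + 1)) ≤
        ((1 / 16 : ℝ) * (Fintype.card (Fin k → Fin N) : ℝ)) * (16 * ((k : ℝ) + 1)) := by
      nlinarith
    exact le_of_mul_le_mul_right h5 (by positivity)
  rw [hfil, Fintype.card_piFinset]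
  push_cast
  have h6 : ∀ x : V, ((if x ∈ T then A else univ : Finset (Fin k → Fin N)).card : ℝ) ≤
      (if x ∈ T then (1 / 16 : ℝ) else 1) * (Fintype.card (Fin k → Fin N) : ℝ) := by
    intro x
    split_ifs
    · exact hAc
    · rw [one_mul, Finset.card_univ]
  refine (Finset.prod_le_prod (fun x _ => Nat.cast_nonneg _) (fun x _ => h6 x)).trans (le_of_eq ?_)
  rw [Finset.prod_mul_distrib, Finset.prod_const, Finset.card_univ, Finset.prod_ite_mem,
    Finset.univ_inter, Finset.prod_const, Fintype.card_fun (α := V)]
  push_cast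
  ring

end Pool.Agent.TH451.BK
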